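import Pool.Agent.N550.OC.Stm

/-!
# Project OC: the theorem for an arbitrary linear coordinate
-/

set_option autoImplicit false

open Set Filter Topology Metric Function MeasureTheory
open scoped Manifold ContDiff

noncomputable section

namespace Pool.Agent.N550.OC.Fin

open Pool.Agent.Y522 Pool.Agent.N550.KH Pool.Agent.N550.BC

/-- one linear coordinate of `h` is smooth near `x` with nonzero derivative at `x` -/
def OneC {M : Type} [TopologicalSpace M] [ChartedSpace (EuclideanHalfSpace 4) M] (h : M → E 4)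
    (x : M) : Prop :=
  ∃ ℓ : E 4 →L[ℝ] ℝ, (∀ᶠ y in 𝓝 x, ContMDiffAt (𝓡∂ 4) 𝓘(ℝ, ℝ) ∞ (fun z => ℓ (h z)) y) ∧
    mfderiv (𝓡∂ 4) 𝓘(ℝ, ℝ) (fun z => ℓ (h z)) x ≠ 0

variable {M : Type} [TopologicalSpace M] [ChartedSpace (EuclideanHalfSpace 4) M]

theorem mdiff_of {f : M → E 4} {x : M} (h : ContMDiffAt (𝓡∂ 4) (𝓡 4) ∞ f x) :
    MDifferentiableAt (𝓡∂ 4) (𝓡 4) f x := h.mdifferentiableAt (by simp)

theorem reg_comp (O : E 4 ≃ₗᵢ[ℝ] E 4) {h : M → E 4} {x : M} (hx : Reg h x) :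
    Reg (fun z => O (h z)) x := by
  have hO : ContMDiff (𝓡 4) (𝓡 4) ∞ (O : E 4 → E 4) := O.contDiff.contMDiff
  refine ⟨hx.1.mono fun y hy => ?_, ?_⟩
  · exact (hO (h y)).comp y hy
  · have h1 : MDifferentiableAt (𝓡∂ 4) (𝓡 4) h x := mdiff_of hx.1.self_of_nhds
    have h2 : MDifferentiableAt (𝓡 4) (𝓡 4) (O : E 4 → E 4) (h x) :=
      (hO (h x)).mdifferentiableAt (by simp)
    have h3 : mfderiv (𝓡∂ 4) (𝓡 4) (fun z => O (h z)) x =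
        (mfderiv (𝓡 4) (𝓡 4) (O : E 4 → E 4) (h x)).comp (mfderiv (𝓡∂ 4) (𝓡 4) h x) :=
      mfderiv_comp x h2 h1
    rw [h3]
    have h4 : mfderiv (𝓡 4) (𝓡 4) (O : E 4 → E 4) (h x) =
        (O.toContinuousLinearEquiv : E 4 →L[ℝ] E 4) := by
      rw [mfderiv_eq_fderiv]
      exact O.toContinuousLinearEquiv.fderiv
    have h5 : Bijective (mfderiv (𝓡 4) (𝓡 4) (O : E 4 → E 4) (h x)) := by
      rw [h4]; exact O.bijective
    exact h5.comp hx.2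

theorem main (hP : S_P2) (hR : S_ROT) (M : Type) [TopologicalSpace M]
    [ChartedSpace (EuclideanHalfSpace 4) M] [IsManifold (𝓡∂ 4) ∞ M] (h : M → E 4) (x₀ : M)
    (h1 : HB h) (h2 : x₀ ∈ (𝓡∂ 4).interior M) (h3 : ∀ x, x ≠ x₀ → Reg h x) (h4 : OneC h x₀) :
    ∃ H : M → E 4, HB H ∧ ∀ x, Reg H x := by
  obtain ⟨ℓ, hℓ1, hℓ2⟩ := h4
  have hℓ0 : ℓ ≠ 0 := by
    rintro rfl
    apply hℓ2
    have : (fun z : M => (0 : E 4 →L[ℝ] ℝ) (h z)) = fun _ => (0 : ℝ) := by ext; simp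
    rw [this]
    exact mfderiv_const
  obtain ⟨O, c, hc, hO⟩ := hR ℓ hℓ0
  refine hP M (fun z => O (h z)) x₀ ⟨?_, ?_⟩ h2 (fun x hx => reg_comp O (h3 x hx)) ?_ ?_
  · exact O.toHomeomorph.isEmbedding.comp h1.1
  · have : range (fun z => O (h z)) = O '' range h := by
      ext z; simp
    rw [this, h1.2]
    ext z
    constructor
    · rintro ⟨w, hw, rfl⟩
      simpa using hw
    · intro hz
      exact ⟨O.symm z, by simpa using hz, by simp⟩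
  · have : (fun x => (O (h x)) 0) = fun x => c * ℓ (h x) := by ext x; exact hO (h x)
    show ∀ᶠ y in 𝓝 x₀, ContMDiffAt (𝓡∂ 4) 𝓘(ℝ, ℝ) ∞ (fun x => (O (h x)) 0) y
    rw [this]
    refine hℓ1.mono fun y hy => ?_
    have hm : ContMDiff 𝓘(ℝ, ℝ) 𝓘(ℝ, ℝ) ∞ (fun t : ℝ => c * t) :=
      (contDiff_const.mul contDiff_id).contMDiff
    exact (hm _).comp y hy
  · have : (fun x => (O (h x)) 0) = fun x => c * ℓ (h x) := by ext x; exact hO (h x)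
    show mfderiv (𝓡∂ 4) 𝓘(ℝ, ℝ) (fun x => (O (h x)) 0) x₀ ≠ 0
    rw [this]
    have hd : MDifferentiableAt (𝓡∂ 4) 𝓘(ℝ, ℝ) (fun z => ℓ (h z)) x₀ :=
      hℓ1.self_of_nhds.mdifferentiableAt (by simp)
    have h6 : mfderiv (𝓡∂ 4) 𝓘(ℝ, ℝ) (fun x => c * ℓ (h x)) x₀ =
        c • mfderiv (𝓡∂ 4) 𝓘(ℝ, ℝ) (fun z => ℓ (h z)) x₀ :=
      const_smul_mfderiv hd c
    rw [h6]
    intro h7
    exact hℓ2 ((smul_eq_zero.1 h7).resolve_left hc)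

/-- the first coordinate -/
def pr0 : E 4 →L[ℝ] ℝ := EuclideanSpace.proj (0 : Fin 4)

/-- A regular homeomorphism satisfies the condition at an interior point. -/
theorem conv [IsManifold (𝓡∂ 4) ∞ M] (H : M → E 4) (h1 : HB H) (h2 : ∀ x, Reg H x) :
    ∃ x₀ : M, x₀ ∈ (𝓡∂ 4).interior M ∧ OneC H x₀ := by
  let H' : M ≃ₜ closedBall (0 : E 4) 1 := h1.1.toHomeomorph.trans (Homeomorph.setCongr h1.2)
  have h0 : (0 : E 4) ∈ range H := by rw [h1.2]; simp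
  obtain ⟨x₀, hx₀⟩ := h0
  refine ⟨x₀, ?_, pr0, ?_, ?_⟩
  · refine (Pool.Agent.Y833.SH.int_iff (I := 𝓡∂ 4) (E := E 4) inferInstance H' x₀).2 ?_
    show ‖H x₀‖ < 1
    rw [hx₀]; simp
  · have hm : ContMDiff (𝓡 4) 𝓘(ℝ, ℝ) ∞ (pr0 : E 4 → ℝ) := pr0.contDiff.contMDiff
    exact (h2 x₀).1.mono fun y hy => (hm _).comp y hy
  · have hm : ContMDiff (𝓡 4) 𝓘(ℝ, ℝ) ∞ (pr0 : E 4 → ℝ) := pr0.contDiff.contMDiff
    have hd1 : MDifferentiableAt (𝓡∂ 4) (𝓡 4) H x₀ := mdiff_of (h2 x₀).1.self_of_nhds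
    have hd2 : MDifferentiableAt (𝓡 4) 𝓘(ℝ, ℝ) (pr0 : E 4 → ℝ) (H x₀) :=
      (hm _).mdifferentiableAt (by simp)
    have h3 : mfderiv (𝓡∂ 4) 𝓘(ℝ, ℝ) (fun z => pr0 (H z)) x₀ =
        (mfderiv (𝓡 4) 𝓘(ℝ, ℝ) (pr0 : E 4 → ℝ) (H x₀)).comp (mfderiv (𝓡∂ 4) (𝓡 4) H x₀) :=
      mfderiv_comp x₀ hd2 hd1
    have h4 : mfderiv (𝓡 4) 𝓘(ℝ, ℝ) (pr0 : E 4 → ℝ) (H x₀) = pr0 := by
      rw [mfderiv_eq_fderiv]
      exact pr0.fderiv
    intro h5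
    obtain ⟨v, hv⟩ := (h2 x₀).2.2 (EuclideanSpace.single (0 : Fin 4) (1 : ℝ))
    have h6 : mfderiv (𝓡∂ 4) 𝓘(ℝ, ℝ) (fun z => pr0 (H z)) x₀ v = (1 : ℝ) := by
      rw [h3, h4]
      show pr0 (mfderiv (𝓡∂ 4) (𝓡 4) H x₀ v) = 1
      have h8 : pr0 (EuclideanSpace.single (0 : Fin 4) (1 : ℝ)) = 1 := by simp [pr0]
      rw [← h8]
      exact congrArg pr0 hv
    have h9 : (0 : ℝ) = 1 := by
      rw [← h6, h5]
      rfl
    exact zero_ne_one h9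

end Pool.Agent.N550.OC.Fin
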