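import Pool.Agent.N550.OC.Stm

/-!
# Project OC, leaf P1A: resolution of a family (helper918)
-/

set_option autoImplicit false

open Set Filter Topology Metric Function MeasureTheory
open scoped Manifold ContDiff

noncomputable section

namespace Pool.Agent.N550.OC.P1A

open Pool.Agent.Y522

section gen

variable {P V : Type*} [NormedAddCommGroup P] [NormedSpace ℝ P] [FiniteDimensional ℝ P]
  [NormedAddCommGroup V] [NormedSpace ℝ V] [FiniteDimensional ℝ V]

omit [FiniteDimensional ℝ P] [FiniteDimensional ℝ V] in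
lemma slice_fderiv {f : P × V → V} {z : P × V} (h : DifferentiableAt ℝ f z) :
    fderiv ℝ (fun y => f (z.1, y)) z.2 = (fderiv ℝ f z).comp (ContinuousLinearMap.inr ℝ P V) := by
  have h1 : HasFDerivAt f (fderiv ℝ f z) (z.1, z.2) := h.hasFDerivAt
  have h2 : HasFDerivAt (fun y : V => (z.1, y)) (ContinuousLinearMap.inr ℝ P V) z.2 :=
    hasFDerivAt_prodMk_right z.1 z.2
  exact (h1.comp z.2 h2).fderiv

omit [FiniteDimensional ℝ P] in
lemma ev_bij {f : P × V → V} {p : P} {y : V} (hf : ContDiffAt ℝ ∞ f (p, y))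
    (hb : Bijective (fderiv ℝ (fun y => f (p, y)) y)) :
    ∀ᶠ z in 𝓝 (p, y), Bijective (fderiv ℝ (fun y => f (z.1, y)) z.2) := by
  have : CompleteSpace V := FiniteDimensional.complete ℝ V
  have hd : ∀ᶠ z in 𝓝 (p, y), DifferentiableAt ℝ f z := by
    have h1 : ContDiffAt ℝ 1 f (p, y) := hf.of_le (by exact_mod_cast le_top)
    filter_upwards [h1.eventually (by simp)] with z hz
    exact hz.differentiableAt (by simp)
  have hc : ContinuousAt (fun z => (fderiv ℝ f z).comp (ContinuousLinearMap.inr ℝ P V)) (p, y) := by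
    have h1 : ContDiffAt ℝ 0 (fderiv ℝ f) (p, y) := hf.fderiv_right (by simp)
    exact (continuous_id.clm_comp_const _).continuousAt.comp h1.continuousAt
  rw [slice_fderiv (z := (p, y)) hd.self_of_nhds] at hb
  set A := (fderiv ℝ f (p, y)).comp (ContinuousLinearMap.inr ℝ P V) with hA
  let e : V ≃L[ℝ] V := (LinearEquiv.ofBijective (A : V →ₗ[ℝ] V) hb).toContinuousLinearEquiv
  have he : (e : V →L[ℝ] V) = A := by
    ext v
    rfl
  have h3 := ContinuousLinearEquiv.nhds e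
  rw [he] at h3
  filter_upwards [hd, hc.eventually h3] with z hz1 hz2
  rw [slice_fderiv hz1]
  obtain ⟨e', he'⟩ := hz2
  rw [← he']
  exact e'.bijective

lemma ev_inj {f : P × V → V} {p : P} {y : V} (hf : ContDiffAt ℝ ∞ f (p, y))
    (hb : Bijective (fderiv ℝ (fun y => f (p, y)) y)) :
    ∀ᶠ z : P × (V × V) in 𝓝 (p, (y, y)), f (z.1, z.2.1) = f (z.1, z.2.2) → z.2.1 = z.2.2 := by
  have : CompleteSpace V := FiniteDimensional.complete ℝ V
  have : CompleteSpace P := FiniteDimensional.complete ℝ P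
  have hd : DifferentiableAt ℝ f (p, y) := hf.differentiableAt (by simp)
  rw [slice_fderiv (z := (p, y)) hd] at hb
  set Φ : P × V → P × V := fun z => (z.1, f z) with hΦ
  have hs : HasStrictFDerivAt Φ ((ContinuousLinearMap.fst ℝ P V).prod (fderiv ℝ f (p, y))) (p, y) := by
    have h1 : HasStrictFDerivAt f (fderiv ℝ f (p, y)) (p, y) := hf.hasStrictFDerivAt (by simp)
    exact hasStrictFDerivAt_fst.prodMk h1
  set A := (ContinuousLinearMap.fst ℝ P V).prod (fderiv ℝ f (p, y)) with hA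
  have hinj : Injective (A : P × V →ₗ[ℝ] P × V) := by
    rw [← LinearMap.ker_eq_bot, LinearMap.ker_eq_bot']
    rintro ⟨q, v⟩ hq
    have h1 : (q, fderiv ℝ f (p, y) (q, v)) = (0, 0) := hq
    rw [Prod.mk.injEq] at h1
    obtain ⟨rfl, h2⟩ := h1
    have h3 : v = 0 := hb.1 (by
      rw [map_zero]
      exact h2)
    rw [h3]
    rfl
  let e : (P × V) ≃L[ℝ] (P × V) := (LinearEquiv.ofInjectiveEndo (A : P × V →ₗ[ℝ] P × V) hinj).toContinuousLinearEquiv
  have he : (e : (P × V) →L[ℝ] (P × V)) = A := by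
    apply ContinuousLinearMap.ext
    intro v
    rfl
  rw [← he] at hs
  have hsrc := hs.mem_toOpenPartialHomeomorph_source
  have hopen := (hs.toOpenPartialHomeomorph Φ).open_source
  have hn := hopen.mem_nhds hsrc
  have c1 : ContinuousAt (fun z : P × (V × V) => (z.1, z.2.1)) (p, (y, y)) := by fun_prop
  have c2 : ContinuousAt (fun z : P × (V × V) => (z.1, z.2.2)) (p, (y, y)) := by fun_prop
  filter_upwards [c1.eventually hn, c2.eventually hn] with z h1 h2 h3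
  have h4 := (hs.toOpenPartialHomeomorph Φ).injOn h1 h2 (by
    show Φ (z.1, z.2.1) = Φ (z.1, z.2.2)
    rw [hΦ]
    simp only
    rw [h3])
  exact congrArg Prod.snd h4

end gen


section main

variable {k : ℕ}

/-- the cut off in space -/
def chi (r' : ℝ) (y : E k) : ℝ := Real.smoothTransition ((‖y‖ ^ 2 - (r' / 2) ^ 2) / (r' ^ 2 - (r' / 2) ^ 2))

lemma chi_smooth (r' : ℝ) : ContDiff ℝ ∞ (chi (k := k) r') := by
  unfold chi
  exact Real.smoothTransition.contDiff.comp (((contDiff_norm_sq ℝ).sub contDiff_const).div_const _)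

lemma chi_zero {r' : ℝ} (h : 0 < r') {y : E k} (hy : ‖y‖ ≤ r' / 2) : chi r' y = 0 := by
  unfold chi
  apply Real.smoothTransition.zero_of_nonpos
  apply div_nonpos_of_nonpos_of_nonneg
  · have := norm_nonneg y
    nlinarith
  · nlinarith

lemma chi_one {r' : ℝ} (h : 0 < r') {y : E k} (hy : r' ≤ ‖y‖) : chi r' y = 1 := by
  unfold chi
  apply Real.smoothTransition.one_of_one_le
  rw [one_le_div (by nlinarith)]
  nlinarith

/-- the cut off in time -/
def sig (τ t : ℝ) : ℝ :=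
  -τ / 2 + τ * ((t + τ / 2) / τ * (1 - Real.smoothTransition (8 * ((t + τ / 2) / τ))))

lemma sig_smooth (τ : ℝ) : ContDiff ℝ ∞ (sig τ) := by
  unfold sig
  have h1 : ContDiff ℝ ∞ (fun t : ℝ => (t + τ / 2) / τ) := (contDiff_id.add contDiff_const).div_const _
  have h2 : ContDiff ℝ ∞ (fun t : ℝ => Real.smoothTransition (8 * ((t + τ / 2) / τ))) :=
    Real.smoothTransition.contDiff.comp (contDiff_const.mul h1)
  exact contDiff_const.add (contDiff_const.mul (h1.mul (contDiff_const.sub h2)))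

lemma sig_of_le {τ t : ℝ} (hτ : 0 < τ) (ht : t ≤ -τ / 2) : sig τ t = t := by
  unfold sig
  have h1 : (t + τ / 2) / τ ≤ 0 := div_nonpos_of_nonpos_of_nonneg (by linarith) hτ.le
  rw [Real.smoothTransition.zero_of_nonpos (by linarith)]
  field_simp
  ring

lemma sig_bd {τ t : ℝ} (hτ : 0 < τ) (ht : -τ / 2 ≤ t) : -τ / 2 ≤ sig τ t ∧ sig τ t ≤ -τ / 2 + τ / 8 := by
  unfold sig
  set s := (t + τ / 2) / τ with hs
  have h0 : 0 ≤ s := div_nonneg (by linarith) hτ.le
  have h1 := Real.smoothTransition.nonneg (8 * s)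
  have h2 := Real.smoothTransition.le_one (8 * s)
  have h3 : 0 ≤ s * (1 - Real.smoothTransition (8 * s)) := mul_nonneg h0 (by linarith)
  have h4 : s * (1 - Real.smoothTransition (8 * s)) ≤ 1 / 8 := by
    rcases le_or_gt (1 / 8) s with h5 | h5
    · rw [Real.smoothTransition.one_of_one_le (by linarith)]
      norm_num
    · nlinarith
  constructor
  · nlinarith
  · nlinarith

lemma sig_neg {τ t : ℝ} (hτ : 0 < τ) : sig τ t < 0 := by
  rcases le_or_gt t (-τ / 2) with h | h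
  · rw [sig_of_le hτ h]
    linarith
  · have := (sig_bd hτ h.le).2
    linarith

lemma sig_abs {τ t : ℝ} (hτ : 0 < τ) (ht : |t| < 2 * τ) : |sig τ t| < 2 * τ := by
  rcases le_or_gt t (-τ / 2) with h | h
  · rw [sig_of_le hτ h]
    exact ht
  · have h1 := sig_bd hτ h.le
    rw [abs_lt]
    constructor <;> linarith [h1.1, h1.2]

/-- the interpolation -/
def G (g : ℝ → E k → E k) (r' : ℝ) (q : (ℝ × ℝ) × E k) : E k :=
  g q.1.1 q.2 + chi r' q.2 • (g q.1.2 q.2 - g q.1.1 q.2)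

lemma G_small {g : ℝ → E k → E k} {r' : ℝ} (h : 0 < r') {p : ℝ × ℝ} {y : E k} (hy : ‖y‖ ≤ r' / 2) :
    G g r' (p, y) = g p.1 y := by
  unfold G
  simp only
  rw [chi_zero h hy, zero_smul, add_zero]

lemma G_zero {g : ℝ → E k → E k} {r' : ℝ} (y : E k) : G g r' ((0, 0), y) = g 0 y := by
  unfold G
  simp

variable {g : ℝ → E k → E k} {ε : ℝ}

lemma G_cont (hg : Fam k g ε) (r' : ℝ) {y : E k} (hy : ‖y‖ < ε) : ContinuousAt (G g r') ((0, 0), y) := by
  obtain ⟨hε, hc, -, -⟩ := hg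
  have h1 : ContinuousAt (fun q : (ℝ × ℝ) × E k => g q.1.1 q.2) ((0, 0), y) :=
    ContinuousAt.comp_of_eq (g := fun p : ℝ × E k => g p.1 p.2) (f := fun q : (ℝ × ℝ) × E k => (q.1.1, q.2))
      (hc 0 y (by simpa using hε) hy) (by fun_prop) rfl
  have h2 : ContinuousAt (fun q : (ℝ × ℝ) × E k => g q.1.2 q.2) ((0, 0), y) :=
    ContinuousAt.comp_of_eq (g := fun p : ℝ × E k => g p.1 p.2) (f := fun q : (ℝ × ℝ) × E k => (q.1.2, q.2))
      (hc 0 y (by simpa using hε) hy) (by fun_prop) rfl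
  have h3 : ContinuousAt (fun q : (ℝ × ℝ) × E k => chi r' q.2) ((0, 0), y) :=
    (chi_smooth r').continuous.continuousAt.comp (by fun_prop)
  exact h1.add (h3.smul (h2.sub h1))

lemma G_smooth (hg : Fam k g ε) (r' : ℝ) {y : E k} (hy : ‖y‖ < ε) (hy0 : y ≠ 0) :
    ContDiffAt ℝ ∞ (G g r') ((0, 0), y) := by
  obtain ⟨hε, -, hs, -⟩ := hg
  have h0 := (hs 0 y (by simpa using hε) hy (Or.inr hy0)).1
  have h1 : ContDiffAt ℝ ∞ (fun q : (ℝ × ℝ) × E k => g q.1.1 q.2) ((0, 0), y) :=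
    ContDiffAt.comp (g := fun p : ℝ × E k => g p.1 p.2) (f := fun q : (ℝ × ℝ) × E k => (q.1.1, q.2)) _
      h0 (by fun_prop)
  have h2 : ContDiffAt ℝ ∞ (fun q : (ℝ × ℝ) × E k => g q.1.2 q.2) ((0, 0), y) :=
    ContDiffAt.comp (g := fun p : ℝ × E k => g p.1 p.2) (f := fun q : (ℝ × ℝ) × E k => (q.1.2, q.2)) _
      h0 (by fun_prop)
  have h3 : ContDiffAt ℝ ∞ (fun q : (ℝ × ℝ) × E k => chi r' q.2) ((0, 0), y) :=
    (chi_smooth r').contDiffAt.comp _ contDiffAt_snd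
  exact h1.add (h3.smul (h2.sub h1))

lemma fd_zero (r' : ℝ) (y : E k) : fderiv ℝ (fun y => G g r' ((0, 0), y)) y = fderiv ℝ (g 0) y := by
  congr 1
  funext z
  exact G_zero z

lemma D_loc (hg : Fam k g ε) {r r' : ℝ} (hr' : 0 < r') (hrr : r' < r) (hr : r < ε) (y : E k) (hy : ‖y‖ ≤ r) :
    ∀ᶠ q : (ℝ × ℝ) × E k in 𝓝 ((0, 0), y), q.1.1 ≠ 0 → Bijective (fderiv ℝ (fun y' => G g r' (q.1, y')) q.2) := by
  by_cases hy0 : y = 0
  · subst hy0
    have c1 : ContinuousAt (fun q : (ℝ × ℝ) × E k => |q.1.1|) ((0, 0), 0) := by fun_prop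
    have c2 : ContinuousAt (fun q : (ℝ × ℝ) × E k => ‖q.2‖) ((0, 0), 0) := by fun_prop
    have e1 : ∀ᶠ q : (ℝ × ℝ) × E k in 𝓝 ((0, 0), 0), |q.1.1| < ε :=
      c1.eventually_lt continuousAt_const (by simpa using hg.1)
    have e2 : ∀ᶠ q : (ℝ × ℝ) × E k in 𝓝 ((0, 0), 0), ‖q.2‖ < r' / 2 :=
      c2.eventually_lt continuousAt_const (by simpa using hr')
    filter_upwards [e1, e2] with q h1 h2 h3
    have h4 : (fun y' => G g r' (q.1, y')) =ᶠ[𝓝 q.2] g q.1.1 := by
      have h5 : ∀ᶠ z in 𝓝 q.2, ‖z‖ < r' / 2 := continuousAt_id.norm.eventually_lt continuousAt_const h2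
      filter_upwards [h5] with z hz
      exact G_small hr' hz.le
    rw [h4.fderiv_eq]
    exact (hg.2.2.1 q.1.1 q.2 h1 (by linarith) (Or.inl h3)).2
  · have h1 := ev_bij (G_smooth hg r' (by linarith) hy0) (by
      rw [fd_zero]
      exact (hg.2.2.1 0 y (by simpa using hg.1) (by linarith) (Or.inr hy0)).2)
    filter_upwards [h1] with q hq _
    exact hq

lemma I_loc (hg : Fam k g ε) {r r' : ℝ} (hr' : 0 < r') (hrr : r' < r) (hr : r < ε) (w : E k × E k)
    (hw : ‖w.1‖ ≤ r ∧ ‖w.2‖ ≤ r) :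
    ∀ᶠ z : (ℝ × ℝ) × (E k × E k) in 𝓝 ((0, 0), w), z.1.1 ≠ 0 →
      G g r' (z.1, z.2.1) = G g r' (z.1, z.2.2) → z.2.1 = z.2.2 := by
  obtain ⟨y, y'⟩ := w
  obtain ⟨hy, hy'⟩ := hw
  simp only at hy hy'
  by_cases hne : y = y'
  · subst hne
    by_cases hy0 : y = 0
    · subst hy0
      have c1 : ContinuousAt (fun q : (ℝ × ℝ) × (E k × E k) => |q.1.1|) ((0, 0), (0, 0)) := by fun_prop
      have c2 : ContinuousAt (fun q : (ℝ × ℝ) × (E k × E k) => ‖q.2.1‖) ((0, 0), (0, 0)) := by fun_prop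
      have c3 : ContinuousAt (fun q : (ℝ × ℝ) × (E k × E k) => ‖q.2.2‖) ((0, 0), (0, 0)) := by fun_prop
      have e1 : ∀ᶠ q : (ℝ × ℝ) × (E k × E k) in 𝓝 ((0, 0), (0, 0)), |q.1.1| < ε :=
        c1.eventually_lt continuousAt_const (by simpa using hg.1)
      have e2 : ∀ᶠ q : (ℝ × ℝ) × (E k × E k) in 𝓝 ((0, 0), (0, 0)), ‖q.2.1‖ < r' / 2 :=
        c2.eventually_lt continuousAt_const (by simpa using hr')
      have e3 : ∀ᶠ q : (ℝ × ℝ) × (E k × E k) in 𝓝 ((0, 0), (0, 0)), ‖q.2.2‖ < r' / 2 :=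
        c3.eventually_lt continuousAt_const (by simpa using hr')
      filter_upwards [e1, e2, e3] with q h1 h2 h3 _ h4
      rw [G_small hr' h2.le, G_small hr' h3.le] at h4
      exact hg.2.2.2 q.1.1 h1 (by rw [mem_ball_zero_iff]; linarith) (by rw [mem_ball_zero_iff]; linarith) h4
    · have h1 := ev_inj (G_smooth hg r' (by linarith) hy0) (by
        rw [fd_zero]
        exact (hg.2.2.1 0 y (by simpa using hg.1) (by linarith) (Or.inr hy0)).2)
      filter_upwards [h1] with q hq _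
      exact hq
  · have h1 : G g r' ((0, 0), y) ≠ G g r' ((0, 0), y') := by
      rw [G_zero, G_zero]
      intro h
      exact hne (hg.2.2.2 0 (by simpa using hg.1) (by rw [mem_ball_zero_iff]; linarith)
        (by rw [mem_ball_zero_iff]; linarith) h)
    have c1 : ContinuousAt (fun q : (ℝ × ℝ) × (E k × E k) => G g r' (q.1, q.2.1)) ((0, 0), (y, y')) :=
      ContinuousAt.comp_of_eq (f := fun q : (ℝ × ℝ) × (E k × E k) => (q.1, q.2.1))
        (G_cont hg r' (y := y) (by linarith)) (by fun_prop) rfl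
    have c2 : ContinuousAt (fun q : (ℝ × ℝ) × (E k × E k) => G g r' (q.1, q.2.2)) ((0, 0), (y, y')) :=
      ContinuousAt.comp_of_eq (f := fun q : (ℝ × ℝ) × (E k × E k) => (q.1, q.2.2))
        (G_cont hg r' (y := y') (by linarith)) (by fun_prop) rfl
    have c3 := c1.sub c2
    filter_upwards [c3.eventually_ne (sub_ne_zero.2 h1)] with q hq _ h4
    exact absurd (sub_eq_zero.2 h4) hq

lemma glob (hg : Fam k g ε) {r r' : ℝ} (hr' : 0 < r') (hrr : r' < r) (hr : r < ε) :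
    ∃ δ : ℝ, 0 < δ ∧ ∀ s t : ℝ, |s| < δ → |t| < δ → s ≠ 0 →
      (∀ y : E k, ‖y‖ ≤ r → Bijective (fderiv ℝ (fun y' => G g r' ((s, t), y')) y)) ∧
      InjOn (fun y' => G g r' ((s, t), y')) (closedBall 0 r) := by
  have hK : IsCompact (closedBall (0 : E k) r) := isCompact_closedBall 0 r
  have h1 : ∀ᶠ p in 𝓝 ((0 : ℝ), (0 : ℝ)), ∀ y ∈ closedBall (0 : E k) r,
      p.1 ≠ 0 → Bijective (fderiv ℝ (fun y' => G g r' (p, y')) y) := by
    refine hK.eventually_forall_of_forall_eventually (x₀ := ((0 : ℝ), (0 : ℝ)))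
      (P := fun (p : ℝ × ℝ) (y : E k) => p.1 ≠ 0 → Bijective (fderiv ℝ (fun y' => G g r' (p, y')) y)) ?_
    intro y hy
    exact D_loc hg hr' hrr hr y (mem_closedBall_zero_iff.1 hy)
  have h2 : ∀ᶠ p in 𝓝 ((0 : ℝ), (0 : ℝ)), ∀ w ∈ closedBall (0 : E k) r ×ˢ closedBall (0 : E k) r,
      p.1 ≠ 0 → G g r' (p, w.1) = G g r' (p, w.2) → w.1 = w.2 := by
    refine (hK.prod hK).eventually_forall_of_forall_eventually (x₀ := ((0 : ℝ), (0 : ℝ)))
      (P := fun (p : ℝ × ℝ) (w : E k × E k) => p.1 ≠ 0 → G g r' (p, w.1) = G g r' (p, w.2) → w.1 = w.2) ?_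
    intro w hw
    exact I_loc hg hr' hrr hr w ⟨mem_closedBall_zero_iff.1 hw.1, mem_closedBall_zero_iff.1 hw.2⟩
  obtain ⟨δ, hδ, h3⟩ := Metric.eventually_nhds_iff.1 (h1.and h2)
  refine ⟨δ, hδ, fun s t hs ht hs0 => ?_⟩
  have h4 : dist (s, t) ((0 : ℝ), (0 : ℝ)) < δ := by
    rw [Prod.dist_eq, max_lt_iff, Real.dist_eq, Real.dist_eq, sub_zero, sub_zero]
    exact ⟨hs, ht⟩
  obtain ⟨h5, h6⟩ := h3 h4
  refine ⟨fun y hy => h5 y (mem_closedBall_zero_iff.2 hy) hs0, fun y hy y' hy' h7 => ?_⟩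
  exact h6 (y, y') ⟨hy, hy'⟩ hs0 h7

theorem main : S_P1A := by
  intro k g ε ρ _ hρ hg
  have hε : 0 < ε := hg.1
  -- continuity at the origin
  have hc := hg.2.1 0 0 (by simpa using hε) (by simpa using hε)
  obtain ⟨δ₀, hδ₀, h0⟩ := Metric.continuousAt_iff.1 hc ρ hρ
  set r := min δ₀ ε / 2 with hr
  have hr0 : 0 < r := by
    have : 0 < min δ₀ ε := lt_min hδ₀ hε
    positivity
  have hrε : r < ε := by
    have := min_le_right δ₀ ε
    have : 0 < min δ₀ ε := lt_min hδ₀ hε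
    linarith
  have hrδ : r < δ₀ := by
    have := min_le_left δ₀ ε
    have : 0 < min δ₀ ε := lt_min hδ₀ hε
    linarith
  set r' := r / 2 with hr'
  have hr'0 : 0 < r' := by positivity
  have hrr : r' < r := by linarith
  obtain ⟨δ, hδ, hG⟩ := glob hg hr'0 hrr hrε
  obtain ⟨τ, hτ0, hτ1, hτ2, hτ3, hτ4⟩ : ∃ τ : ℝ, 0 < τ ∧ τ < ρ ∧ 2 * τ < ε ∧ 2 * τ ≤ δ ∧ 2 * τ ≤ δ₀ := by
    refine ⟨min (min (ρ / 2) (ε / 4)) (min (δ / 2) (δ₀ / 2)), ?_, ?_, ?_, ?_, ?_⟩
    · exact lt_min (lt_min (by positivity) (by positivity)) (lt_min (by positivity) (by positivity))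
    · exact lt_of_le_of_lt ((min_le_left _ _).trans (min_le_left _ _)) (by linarith)
    · have : min (min (ρ / 2) (ε / 4)) (min (δ / 2) (δ₀ / 2)) ≤ ε / 4 := (min_le_left _ _).trans (min_le_right _ _)
      linarith
    · have : min (min (ρ / 2) (ε / 4)) (min (δ / 2) (δ₀ / 2)) ≤ δ / 2 := (min_le_right _ _).trans (min_le_left _ _)
      linarith
    · have : min (min (ρ / 2) (ε / 4)) (min (δ / 2) (δ₀ / 2)) ≤ δ₀ / 2 := (min_le_right _ _).trans (min_le_right _ _)
      linarith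
  refine ⟨fun t y => G g r' ((sig τ t, t), y), τ, r, r', hτ0, hτ1, hτ2, hr'0, hrr, hrε, ?_, ?_, ?_, ?_, ?_, ?_⟩
  · -- smoothness
    intro t y ht hy
    have hs0 : sig τ t ≠ 0 := (sig_neg hτ0).ne
    have hs1 : |sig τ t| < ε := (sig_abs hτ0 ht).trans hτ2
    have hA : ContDiffAt ℝ ∞ (fun p : ℝ × E k => g (sig τ p.1) p.2) (t, y) := by
      refine ContDiffAt.comp (g := fun p : ℝ × E k => g p.1 p.2) (f := fun p : ℝ × E k => (sig τ p.1, p.2)) _
        (hg.2.2.1 (sig τ t) y hs1 hy (Or.inl hs0)).1 ?_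
      exact ((sig_smooth τ).contDiffAt.comp _ contDiffAt_fst).prodMk contDiffAt_snd
    by_cases hy0 : y = 0
    · subst hy0
      refine hA.congr_of_eventuallyEq ?_
      have c2 : ContinuousAt (fun q : ℝ × E k => ‖q.2‖) (t, 0) := by fun_prop
      have e2 : ∀ᶠ q : ℝ × E k in 𝓝 (t, 0), ‖q.2‖ < r' / 2 :=
        c2.eventually_lt continuousAt_const (by simpa using hr'0)
      filter_upwards [e2] with q hq
      exact G_small hr'0 hq.le
    · have hB : ContDiffAt ℝ ∞ (fun p : ℝ × E k => g p.1 p.2) (t, y) :=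
        (hg.2.2.1 t y (by linarith) hy (Or.inr hy0)).1
      have hχ : ContDiffAt ℝ ∞ (fun p : ℝ × E k => chi r' p.2) (t, y) :=
        (chi_smooth r').contDiffAt.comp _ contDiffAt_snd
      exact hA.add (hχ.smul (hB.sub hA))
  · intro t y ht hy
    exact (hG (sig τ t) t ((sig_abs hτ0 ht).trans_le hτ3) (ht.trans_le hτ3) (sig_neg hτ0).ne).1 y hy
  · intro t ht
    exact (hG (sig τ t) t ((sig_abs hτ0 ht).trans_le hτ3) (ht.trans_le hτ3) (sig_neg hτ0).ne).2
  · intro t y _ hy _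
    show G g r' ((sig τ t, t), y) = g t y
    unfold G
    simp only
    rw [chi_one hr'0 hy, one_smul]
    abel
  · intro t y _ ht _
    show G g r' ((sig τ t, t), y) = g t y
    unfold G
    simp only
    rw [sig_of_le hτ0 ht, sub_self, smul_zero, add_zero]
  · intro t y ht hy
    have h1 : dist (t, y) ((0 : ℝ), (0 : E k)) < δ₀ := by
      rw [Prod.dist_eq, max_lt_iff, Real.dist_eq, sub_zero, dist_zero_right]
      exact ⟨by linarith, by linarith⟩
    have h2 := h0 h1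
    rw [dist_eq_norm] at h2
    exact h2

end main

end Pool.Agent.N550.OC.P1A
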