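import Pool.Agent.N550.OC.Stm

/-!
# The family of bijections of a resolution (project OC, leaf P1B; helper323)
-/

set_option autoImplicit false

open Set Filter Topology Metric Function
open scoped ContDiff

noncomputable section

namespace Pool.Agent.N550.OC.P1B

abbrev X (k : ℕ) := EuclideanSpace ℝ (Fin k)

theorem topo {Y : Type*} [TopologicalSpace Y] {V W S : Set Y} {c : Y}
    (hVo : IsOpen V) (hVS : ∀ z ∈ V, z ∉ S) (hVc : closure V ⊆ V ∪ S)
    (hVp : IsPreconnected (V \ {c}))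
    (hWo : IsOpen W) (hWS : ∀ z ∈ W, z ∉ S) (hWc : closure W ⊆ W ∪ {c} ∪ S)
    (hWp : IsPreconnected W) (hcW : c ∉ W) (hcc : c ∈ closure W) (hcS : c ∉ S)
    (hne : (V ∩ W).Nonempty) : V = W ∪ {c} := by
  have h1 : W ⊆ V := by
    refine hWp.subset_left_of_subset_union (v := (closure V)ᶜ) hVo isClosed_closure.isOpen_compl ?_ ?_ ?_
    · exact disjoint_compl_right.mono_left subset_closure
    · intro w hw
      by_cases h : w ∈ closure V
      · rcases hVc h with h2 | h2
        · exact Or.inl h2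
        · exact absurd h2 (hWS w hw)
      · exact Or.inr h
    · obtain ⟨z, h1, h2⟩ := hne
      exact ⟨z, h2, h1⟩
  have h2 : V \ {c} ⊆ W := by
    refine hVp.subset_left_of_subset_union (v := (closure W)ᶜ) hWo isClosed_closure.isOpen_compl ?_ ?_ ?_
    · exact disjoint_compl_right.mono_left subset_closure
    · rintro w ⟨hw, hwc⟩
      by_cases h : w ∈ closure W
      · rcases hWc h with (h2 | h2) | h2
        · exact Or.inl h2
        · exact absurd h2 hwc
        · exact absurd h2 (hVS w hw)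
      · exact Or.inr h
    · obtain ⟨z, h1, h2⟩ := hne
      exact ⟨z, ⟨h1, fun h => hcW (by rw [← mem_singleton_iff.1 h]; exact h2)⟩, h2⟩
  have h3 : c ∈ V := by
    rcases hVc (closure_mono h1 hcc) with h | h
    · exact h
    · exact absurd h hcS
  ext z
  constructor
  · intro hz
    by_cases h : z = c
    · exact Or.inr h
    · exact Or.inl (h2 ⟨hz, h⟩)
  · rintro (h | h)
    · exact h1 h
    · rw [mem_singleton_iff.1 h]; exact h3

theorem ball_diff {k : ℕ} (hk : 2 ≤ k) {r : ℝ} (hr : 0 < r) (y : X k) :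
    IsPreconnected (ball (0 : X k) r \ {y}) := by
  by_cases hy : y ∈ ball (0 : X k) r
  · set e := OpenPartialHomeomorph.univBall (0 : X k) r with he
    have hs : e.source = univ := OpenPartialHomeomorph.univBall_source _ _
    have ht : e.target = ball (0 : X k) r := OpenPartialHomeomorph.univBall_target _ hr
    have h1 : 1 < Module.rank ℝ (X k) := by
      rw [← Module.finrank_eq_rank, finrank_euclideanSpace_fin]
      exact_mod_cast hk
    have h2 := (isConnected_compl_singleton_of_one_lt_rank h1 (e.symm y)).isPreconnected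
    have h3 : ball (0 : X k) r \ {y} = e '' {e.symm y}ᶜ := by
      ext z
      constructor
      · rintro ⟨hz, hzy⟩
        refine ⟨e.symm z, fun h => hzy ?_, e.right_inv (by rw [ht]; exact hz)⟩
        have h4 := congrArg e (mem_singleton_iff.1 h)
        rw [e.right_inv (by rw [ht]; exact hz), e.right_inv (by rw [ht]; exact hy)] at h4
        exact h4
      · rintro ⟨w, hw, rfl⟩
        refine ⟨by rw [← ht]; exact e.map_source (by rw [hs]; exact mem_univ _), fun h => hw ?_⟩
        rw [mem_singleton_iff] at h ⊢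
        rw [← h, e.left_inv (by rw [hs]; exact mem_univ _)]
    rw [h3]
    refine h2.image _ (e.continuousOn.mono ?_)
    rw [hs]; exact subset_univ _
  · have : ball (0 : X k) r \ {y} = ball (0 : X k) r := by
      ext z
      constructor
      · exact fun h => h.1
      · exact fun h => ⟨h, fun h2 => hy (by rw [← mem_singleton_iff.1 h2]; exact h)⟩
    rw [this]
    exact (convex_ball _ _).isPreconnected

/-- images of open sets under regular maps are open -/
theorem open_image {Y : Type*} [NormedAddCommGroup Y] [NormedSpace ℝ Y] [FiniteDimensional ℝ Y]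
    {f : Y → Y} {O : Set Y} (hO : IsOpen O)
    (h : ∀ y ∈ O, ContDiffAt ℝ ∞ f y ∧ Bijective (fderiv ℝ f y)) : IsOpen (f '' O) := by
  have : CompleteSpace Y := FiniteDimensional.complete ℝ Y
  rw [isOpen_iff_mem_nhds]
  rintro _ ⟨y, hy, rfl⟩
  obtain ⟨h1, h2⟩ := h y hy
  have h3 : HasStrictFDerivAt f (fderiv ℝ f y) y := h1.hasStrictFDerivAt (by simp)
  rw [← h3.map_nhds_eq_of_surj (LinearMap.range_eq_top.2 h2.2)]
  exact image_mem_map (hO.mem_nhds hy)

/-- the fibre map `(s, y) ↦ (s, g s y)` -/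
def fib {k : ℕ} (g : ℝ → X k → X k) : ℝ × X k → ℝ × X k := fun p => (p.1, g p.1 p.2)

theorem partial_fderiv {k : ℕ} {g : ℝ → X k → X k} {s : ℝ} {y : X k}
    (h : DifferentiableAt ℝ (fun p : ℝ × X k => g p.1 p.2) (s, y)) (v : X k) :
    fderiv ℝ (g s) y v = fderiv ℝ (fun p : ℝ × X k => g p.1 p.2) (s, y) (0, v) := by
  have h1 : HasFDerivAt (fun y : X k => (s, y)) (ContinuousLinearMap.inr ℝ ℝ (X k)) y :=
    hasFDerivAt_prodMk_right s y
  have h2 : HasFDerivAt (g s) ((fderiv ℝ (fun p : ℝ × X k => g p.1 p.2) (s, y)).comp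
      (ContinuousLinearMap.inr ℝ ℝ (X k))) y :=
    HasFDerivAt.comp (g := fun p : ℝ × X k => g p.1 p.2) y h.hasFDerivAt h1
  rw [h2.fderiv]
  rfl

theorem fib_reg {k : ℕ} {g : ℝ → X k → X k} {s : ℝ} {y : X k}
    (h : ContDiffAt ℝ ∞ (fun p : ℝ × X k => g p.1 p.2) (s, y)) (hb : Bijective (fderiv ℝ (g s) y)) :
    ContDiffAt ℝ ∞ (fib g) (s, y) ∧ Bijective (fderiv ℝ (fib g) (s, y)) := by
  have hd : DifferentiableAt ℝ (fun p : ℝ × X k => g p.1 p.2) (s, y) :=
    h.differentiableAt (by simp)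
  refine ⟨contDiffAt_fst.prodMk h, ?_⟩
  have h1 : HasFDerivAt (fib g) ((ContinuousLinearMap.fst ℝ ℝ (X k)).prod
      (fderiv ℝ (fun p : ℝ × X k => g p.1 p.2) (s, y))) (s, y) :=
    hasFDerivAt_fst.prodMk hd.hasFDerivAt
  rw [h1.fderiv]
  have hinj : Injective ((ContinuousLinearMap.fst ℝ ℝ (X k)).prod
      (fderiv ℝ (fun p : ℝ × X k => g p.1 p.2) (s, y))) := by
    rw [injective_iff_map_eq_zero]
    rintro ⟨a, v⟩ hav
    rw [ContinuousLinearMap.prod_apply, Prod.mk_eq_zero] at hav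
    obtain ⟨h2, h3⟩ := hav
    have h4 : a = 0 := h2
    subst h4
    rw [← partial_fderiv hd] at h3
    have h5 := (injective_iff_map_eq_zero (fderiv ℝ (g s) y)).1 hb.1 v h3
    rw [h5]
    rfl
  refine ⟨hinj, ?_⟩
  exact (LinearMap.injective_iff_surjective (f := (((ContinuousLinearMap.fst ℝ ℝ (X k)).prod
      (fderiv ℝ (fun p : ℝ × X k => g p.1 p.2) (s, y)) : (ℝ × X k) →L[ℝ] (ℝ × X k)) :
      (ℝ × X k) →ₗ[ℝ] (ℝ × X k)))).1 hinj

/-- local inverse of the fibre map -/
theorem fib_inv {k : ℕ} {g : ℝ → X k → X k} {s : ℝ} {y : X k}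
    (h : ContDiffAt ℝ ∞ (fun p : ℝ × X k => g p.1 p.2) (s, y)) (hb : Bijective (fderiv ℝ (g s) y)) :
    ∃ e : ℝ × X k → ℝ × X k, ContDiffAt ℝ ∞ e (s, g s y) ∧ e (s, g s y) = (s, y) ∧
      ∀ᶠ q in 𝓝 (s, g s y), fib g (e q) = q := by
  obtain ⟨h1, h2⟩ := fib_reg h hb
  let f' : (ℝ × X k) ≃L[ℝ] (ℝ × X k) :=
    (LinearEquiv.ofBijective (fderiv ℝ (fib g) (s, y) : (ℝ × X k) →ₗ[ℝ] (ℝ × X k))
      h2).toContinuousLinearEquiv
  have h3 : HasFDerivAt (fib g) (f' : (ℝ × X k) →L[ℝ] (ℝ × X k)) (s, y) := by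
    have h4 : (f' : (ℝ × X k) →L[ℝ] (ℝ × X k)) = fderiv ℝ (fib g) (s, y) := by
      ext p <;> rfl
    rw [h4]
    exact (h1.differentiableAt (by simp)).hasFDerivAt
  have hn : (∞ : WithTop ℕ∞) ≠ 0 := by simp
  refine ⟨(h1.toOpenPartialHomeomorph (fib g) h3 hn).symm, ?_, ?_, ?_⟩
  · exact h1.to_localInverse h3 hn
  · have h5 := h1.mem_toOpenPartialHomeomorph_source h3 hn
    exact (h1.toOpenPartialHomeomorph (fib g) h3 hn).left_inv h5
  · have h6 := h1.image_mem_toOpenPartialHomeomorph_target h3 hn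
    filter_upwards [(h1.toOpenPartialHomeomorph (fib g) h3 hn).open_target.mem_nhds h6] with q hq
    exact (h1.toOpenPartialHomeomorph (fib g) h3 hn).right_inv hq


/-- the reparametrization: `μ t = t` for `|t| ≤ 3 τ / 4`, constant for `|t| ≥ τ` -/
def mu (τ t : ℝ) : ℝ :=
  t + Real.smoothTransition ((t - 3 * τ / 4) / (τ / 4)) * (τ - t) +
    Real.smoothTransition ((-t - 3 * τ / 4) / (τ / 4)) * (-τ - t)

theorem mu_smooth (τ : ℝ) : ContDiff ℝ ∞ (mu τ) := by
  unfold mu
  have h1 : ContDiff ℝ ∞ (fun t : ℝ => Real.smoothTransition ((t - 3 * τ / 4) / (τ / 4))) :=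
    Real.smoothTransition.contDiff.comp ((contDiff_id.sub contDiff_const).div_const _)
  have h2 : ContDiff ℝ ∞ (fun t : ℝ => Real.smoothTransition ((-t - 3 * τ / 4) / (τ / 4))) :=
    Real.smoothTransition.contDiff.comp ((contDiff_id.neg.sub contDiff_const).div_const _)
  exact (contDiff_id.add (h1.mul (contDiff_const.sub contDiff_id))).add
    (h2.mul (contDiff_const.sub contDiff_id))

theorem mu_mid {τ t : ℝ} (hτ : 0 < τ) (h : |t| ≤ 3 * τ / 4) : mu τ t = t := by
  obtain ⟨h1, h2⟩ := abs_le.1 h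
  unfold mu
  rw [Real.smoothTransition.zero_of_nonpos
      (div_nonpos_of_nonpos_of_nonneg (by linarith) (by linarith)),
    Real.smoothTransition.zero_of_nonpos
      (div_nonpos_of_nonpos_of_nonneg (by linarith) (by linarith))]
  ring

theorem mu_pos {τ t : ℝ} (hτ : 0 < τ) (h : 3 * τ / 4 ≤ t) (h' : t ≤ τ) :
    3 * τ / 4 ≤ mu τ t ∧ mu τ t ≤ τ := by
  unfold mu
  rw [Real.smoothTransition.zero_of_nonpos (x := (-t - 3 * τ / 4) / (τ / 4))
      (div_nonpos_of_nonpos_of_nonneg (by linarith) (by linarith))]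
  have h1 := Real.smoothTransition.nonneg ((t - 3 * τ / 4) / (τ / 4))
  have h2 := Real.smoothTransition.le_one ((t - 3 * τ / 4) / (τ / 4))
  constructor <;> nlinarith

theorem mu_top {τ t : ℝ} (hτ : 0 < τ) (h : τ ≤ t) : mu τ t = τ := by
  unfold mu
  rw [Real.smoothTransition.zero_of_nonpos (x := (-t - 3 * τ / 4) / (τ / 4))
      (div_nonpos_of_nonpos_of_nonneg (by linarith) (by linarith)),
    Real.smoothTransition.one_of_one_le (by rw [le_div_iff₀ (by linarith)]; linarith)]
  ring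

theorem mu_neg (τ t : ℝ) : mu τ (-t) = -mu τ t := by
  unfold mu
  rw [neg_neg]
  ring

/-- the facts on `μ` -/
theorem mu_facts {τ : ℝ} (hτ : 0 < τ) : (∀ t, |mu τ t| ≤ τ) ∧ (∀ t, mu τ t = 0 → t = 0) ∧
    (∀ t, t ≤ -τ → mu τ t ≤ -τ / 2) ∧ (∀ t, τ ≤ t → mu τ t = mu τ τ) := by
  have key : ∀ t, 0 ≤ t → mu τ t ≤ τ ∧ 0 ≤ mu τ t ∧ (mu τ t = 0 → t = 0) := by
    intro t ht
    rcases le_or_gt t (3 * τ / 4) with h | h
    · rw [mu_mid hτ (by rw [abs_of_nonneg ht]; exact h)]
      exact ⟨by linarith, ht, fun h => h⟩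
    · rcases le_or_gt t τ with h' | h'
      · obtain ⟨h1, h2⟩ := mu_pos hτ h.le h'
        exact ⟨h2, by linarith, fun h => by linarith⟩
      · rw [mu_top hτ h'.le]
        exact ⟨le_rfl, hτ.le, fun h => by linarith⟩
  refine ⟨fun t => ?_, fun t h => ?_, fun t ht => ?_, fun t ht => ?_⟩
  · rcases le_total 0 t with h | h
    · obtain ⟨h1, h2, -⟩ := key t h
      rw [abs_of_nonneg h2]; exact h1
    · obtain ⟨h1, h2, -⟩ := key (-t) (by linarith)
      rw [mu_neg] at h1 h2
      rw [abs_of_nonpos (by linarith)]; exact h1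
  · rcases le_total 0 t with h0 | h0
    · exact (key t h0).2.2 h
    · have h1 := (key (-t) (by linarith)).2.2 (by rw [mu_neg, h, neg_zero])
      linarith
  · have h1 := mu_top hτ (t := -t) (by linarith)
    rw [mu_neg] at h1
    linarith
  · rw [mu_top hτ ht, mu_top hτ le_rfl]

open Classical in
/-- the bijection for the parameter `s` -/
def Phi {k : ℕ} (g F : ℝ → X k → X k) (r s : ℝ) (z : X k) : X k :=
  if h : ∃ y ∈ closedBall (0 : X k) r, g s y = z then F s h.choose else z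

section

variable {k : ℕ} {g F : ℝ → X k → X k} {ε ρ τ r r' : ℝ}

theorem Phi_fib (hg : Fam k g ε) (hF : Res k g F ε ρ τ r r') {s : ℝ} (hs : |s| < 2 * τ) {y : X k}
    (hy : ‖y‖ ≤ r) : Phi g F r s (g s y) = F s y := by
  obtain ⟨-, -, h2τ, -, -, hrε, -⟩ := hF
  obtain ⟨-, -, -, hinj⟩ := hg
  have h : ∃ y' ∈ closedBall (0 : X k) r, g s y' = g s y :=
    ⟨y, by rw [mem_closedBall_zero_iff]; exact hy, rfl⟩
  unfold Phi
  rw [dif_pos h]
  have h1 := h.choose_spec
  congr 1
  have h3 := h1.1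
  rw [mem_closedBall_zero_iff] at h3
  exact hinj s (by linarith) (by rw [mem_ball_zero_iff]; linarith)
    (by rw [mem_ball_zero_iff]; linarith) h1.2

theorem Phi_off {s : ℝ} {z : X k} (h : z ∉ g s '' closedBall (0 : X k) r) :
    Phi g F r s z = z := by
  unfold Phi
  rw [dif_neg]
  rintro ⟨y, h1, h2⟩
  exact h ⟨y, h1, h2⟩

/-- `Phi s (g s y) = F s y` on the whole `ε`-ball -/
theorem Phi_fib' (hg : Fam k g ε) (hF : Res k g F ε ρ τ r r') {s : ℝ} (hs : |s| < 2 * τ) {y : X k}
    (hy : ‖y‖ < ε) : Phi g F r s (g s y) = F s y := by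
  by_cases h : ‖y‖ ≤ r
  · exact Phi_fib hg hF hs h
  · obtain ⟨-, -, h2τ, -, hr', hrε, -, -, -, heq, -⟩ := hF
    obtain ⟨-, -, -, hinj⟩ := hg
    push Not at h
    rw [Phi_off, heq s y hs (by linarith) hy]
    rintro ⟨y', h1, h2⟩
    rw [mem_closedBall_zero_iff] at h1
    have h3 := hinj s (by linarith) (by rw [mem_ball_zero_iff]; linarith)
      (by rw [mem_ball_zero_iff]; linarith) h2
    rw [h3] at h1
    linarith

/-- the resolution and the family have the same image of the ball -/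
theorem key (hk : 2 ≤ k) (hg : Fam k g ε) (hF : Res k g F ε ρ τ r r') {s : ℝ}
    (hs : |s| < 2 * τ) : F s '' ball (0 : X k) r = g s '' ball (0 : X k) r := by
  obtain ⟨hτ, -, h2τ, hr'0, hr', hrε, hFs, hFb, hFi, heq, -, -⟩ := hF
  obtain ⟨hε, hgc, hgs, hinj⟩ := hg
  have hsε : |s| < ε := by linarith
  have hr : 0 < r := by linarith
  have hgi := hinj s hsε
  have hmb : ∀ y : X k, ‖y‖ ≤ r → y ∈ ball (0 : X k) ε := fun y hy => by
    rw [mem_ball_zero_iff]; linarith
  have hFs' : ∀ y : X k, ‖y‖ < ε → ContDiffAt ℝ ∞ (F s) y := fun y hy =>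
    ContDiffAt.comp (g := fun p : ℝ × X k => F p.1 p.2) y (hFs s y hs hy)
      (contDiffAt_const.prodMk contDiffAt_id)
  have hgs' : ∀ y : X k, ‖y‖ < ε → y ≠ 0 → ContDiffAt ℝ ∞ (g s) y ∧ Bijective (fderiv ℝ (g s) y) :=
    fun y hy h0 => ⟨ContDiffAt.comp (g := fun p : ℝ × X k => g p.1 p.2) y
      (hgs s y hsε hy (Or.inr h0)).1 (contDiffAt_const.prodMk contDiffAt_id),
      (hgs s y hsε hy (Or.inr h0)).2⟩
  have hgc' : ∀ y : X k, ‖y‖ < ε → ContinuousAt (g s) y := fun y hy =>
    ContinuousAt.comp (g := fun p : ℝ × X k => g p.1 p.2) (hgc s y hsε hy)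
      (continuousAt_const.prodMk continuousAt_id)
  have hSeq : ∀ y : X k, ‖y‖ = r → F s y = g s y := fun y hy => heq s y hs (by linarith) (by linarith)
  have hgcl : IsClosed (g s '' closedBall (0 : X k) r) :=
    ((isCompact_closedBall _ _).image_of_continuousOn fun y hy => (hgc' y (by
      rw [mem_closedBall_zero_iff] at hy; linarith)).continuousWithinAt).isClosed
  have hFcl : IsClosed (F s '' closedBall (0 : X k) r) :=
    ((isCompact_closedBall _ _).image_of_continuousOn fun y hy => (hFs' y (by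
      rw [mem_closedBall_zero_iff] at hy; linarith)).continuousAt.continuousWithinAt).isClosed
  have hnt : Nontrivial (X k) := by
    have : Nonempty (Fin k) := ⟨⟨0, by omega⟩⟩
    infer_instance
  have hmain := topo (V := F s '' ball (0 : X k) r) (W := g s '' (ball (0 : X k) r \ {0}))
    (S := g s '' sphere (0 : X k) r) (c := g s 0) ?_ ?_ ?_ ?_ ?_ ?_ ?_ ?_ ?_ ?_ ?_ ?_
  · rw [hmain]
    ext z
    constructor
    · rintro (⟨y, hy, rfl⟩ | h)
      · exact ⟨y, hy.1, rfl⟩
      · exact ⟨0, mem_ball_self hr, (mem_singleton_iff.1 h).symm⟩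
    · rintro ⟨y, hy, rfl⟩
      by_cases h0 : y = 0
      · right; rw [h0]; rfl
      · left; exact ⟨y, ⟨hy, h0⟩, rfl⟩
  · exact open_image isOpen_ball fun y hy => by
      rw [mem_ball_zero_iff] at hy
      exact ⟨hFs' y (by linarith), hFb s y hs hy.le⟩
  · rintro _ ⟨y, hy, rfl⟩ ⟨y', hy', he⟩
    rw [mem_ball_zero_iff] at hy
    rw [mem_sphere_zero_iff_norm] at hy'
    rw [← hSeq y' hy'] at he
    have h1 := hFi s hs (by rw [mem_closedBall_zero_iff]; linarith)
      (by rw [mem_closedBall_zero_iff]; linarith) he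
    rw [h1] at hy'
    linarith
  · refine (closure_minimal (image_mono ball_subset_closedBall) hFcl).trans ?_
    rintro _ ⟨y, hy, rfl⟩
    rw [mem_closedBall_zero_iff] at hy
    rcases hy.lt_or_eq with h | h
    · left; exact ⟨y, by rw [mem_ball_zero_iff]; exact h, rfl⟩
    · right; exact ⟨y, by rw [mem_sphere_zero_iff_norm]; exact h, (hSeq y h).symm⟩
  · -- V minus a point
    by_cases hc : g s 0 ∈ F s '' ball (0 : X k) r
    · obtain ⟨y1, hy1, hc1⟩ := hc
      have h1 : F s '' ball (0 : X k) r \ {g s 0} = F s '' (ball (0 : X k) r \ {y1}) := by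
        ext z
        constructor
        · rintro ⟨⟨y, hy, rfl⟩, hz⟩
          exact ⟨y, ⟨hy, fun h => hz (by rw [mem_singleton_iff.1 h]; exact hc1)⟩, rfl⟩
        · rintro ⟨y, ⟨hy, hyy⟩, rfl⟩
          refine ⟨⟨y, hy, rfl⟩, fun h => hyy ?_⟩
          rw [mem_singleton_iff, ← hc1] at h
          exact hFi s hs (ball_subset_closedBall hy) (ball_subset_closedBall hy1) h
      rw [h1]
      refine (ball_diff hk hr y1).image _ fun y hy => (hFs' y ?_).continuousAt.continuousWithinAt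
      have := hy.1
      rw [mem_ball_zero_iff] at this
      linarith
    · have h1 : F s '' ball (0 : X k) r \ {g s 0} = F s '' ball (0 : X k) r := by
        ext z
        constructor
        · exact fun h => h.1
        · exact fun h => ⟨h, fun h2 => hc (by rw [← mem_singleton_iff.1 h2]; exact h)⟩
      rw [h1]
      refine (convex_ball _ _).isPreconnected.image _ fun y hy =>
        (hFs' y ?_).continuousAt.continuousWithinAt
      rw [mem_ball_zero_iff] at hy
      linarith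
  · refine open_image (isOpen_ball.sdiff isClosed_singleton) fun y hy => ?_
    have h1 := hy.1
    rw [mem_ball_zero_iff] at h1
    exact hgs' y (by linarith) hy.2
  · rintro _ ⟨y, hy, rfl⟩ ⟨y', hy', he⟩
    have h1 := hy.1
    rw [mem_ball_zero_iff] at h1
    rw [mem_sphere_zero_iff_norm] at hy'
    have h2 := hgi (hmb y' hy'.le) (hmb y h1.le) he
    rw [h2] at hy'
    linarith
  · refine (closure_minimal (image_mono (sdiff_subset.trans ball_subset_closedBall))
      hgcl).trans ?_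
    rintro _ ⟨y, hy, rfl⟩
    rw [mem_closedBall_zero_iff] at hy
    rcases hy.lt_or_eq with h | h
    · left
      by_cases h0 : y = 0
      · right; rw [h0]; rfl
      · left; exact ⟨y, ⟨by rw [mem_ball_zero_iff]; exact h, h0⟩, rfl⟩
    · right; exact ⟨y, by rw [mem_sphere_zero_iff_norm]; exact h, rfl⟩
  · refine (ball_diff hk hr 0).image _ fun y hy => (hgc' y ?_).continuousWithinAt
    have := hy.1
    rw [mem_ball_zero_iff] at this
    linarith
  · rintro ⟨y, hy, he⟩
    have h1 := hy.1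
    rw [mem_ball_zero_iff] at h1
    exact hy.2 (hgi (hmb y h1.le) (mem_ball_self hε) he)
  · refine mem_closure_image (hgc' 0 (by rw [norm_zero]; exact hε)) ?_
    rw [mem_closure_iff_nhdsWithin_neBot]
    have h1 : 𝓝[ball (0 : X k) r \ {0}] 0 = 𝓝[≠] 0 := by
      rw [Set.sdiff_eq, nhdsWithin_inter_of_mem]
      exact mem_nhdsWithin_of_mem_nhds (ball_mem_nhds 0 hr)
    rw [h1]
    infer_instance
  · rintro ⟨y, hy, he⟩
    rw [mem_sphere_zero_iff_norm] at hy
    have h1 := hgi (hmb y hy.le) (mem_ball_self hε) he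
    rw [h1, norm_zero] at hy
    linarith
  · obtain ⟨e, he⟩ := exists_norm_eq (X k) (c := (r + r') / 2) (by linarith)
    have h1 : e ∈ ball (0 : X k) r := by rw [mem_ball_zero_iff]; linarith
    refine ⟨F s e, ⟨e, h1, rfl⟩, e, ⟨h1, fun h => ?_⟩, ?_⟩
    · rw [mem_singleton_iff.1 h, norm_zero] at he
      linarith
    · exact (heq s e hs (by linarith) (by linarith)).symm

theorem key' (hk : 2 ≤ k) (hg : Fam k g ε) (hF : Res k g F ε ρ τ r r') {s : ℝ}
    (hs : |s| < 2 * τ) : F s '' closedBall (0 : X k) r = g s '' closedBall (0 : X k) r := by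
  have h1 := key hk hg hF hs
  obtain ⟨hτ, -, h2τ, hr'0, hr', hrε, hFs, hFb, hFi, heq, -, -⟩ := hF
  have hSeq : F s '' sphere (0 : X k) r = g s '' sphere (0 : X k) r := by
    refine image_congr fun y hy => ?_
    rw [mem_sphere_zero_iff_norm] at hy
    exact heq s y hs (by linarith) (by linarith)
  rw [← ball_union_sphere, image_union, image_union, h1, hSeq]

theorem Phi_bij (hk : 2 ≤ k) (hg : Fam k g ε) (hF : Res k g F ε ρ τ r r') {s : ℝ}
    (hs : |s| < 2 * τ) : Bijective (Phi g F r s) := by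
  have hK := key' hk hg hF hs
  have hPin : ∀ z ∈ g s '' closedBall (0 : X k) r, Phi g F r s z ∈ g s '' closedBall (0 : X k) r := by
    rintro _ ⟨y, hy, rfl⟩
    rw [Phi_fib hg hF hs (mem_closedBall_zero_iff.1 hy), ← hK]
    exact ⟨y, hy, rfl⟩
  constructor
  · intro z z' h
    by_cases hz : z ∈ g s '' closedBall (0 : X k) r
    · by_cases hz' : z' ∈ g s '' closedBall (0 : X k) r
      · obtain ⟨y, hy, rfl⟩ := hz
        obtain ⟨y', hy', rfl⟩ := hz'
        rw [Phi_fib hg hF hs (mem_closedBall_zero_iff.1 hy),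
          Phi_fib hg hF hs (mem_closedBall_zero_iff.1 hy')] at h
        rw [hF.2.2.2.2.2.2.2.2.1 s hs hy hy' h]
      · have h1 := hPin z hz
        rw [h, Phi_off hz'] at h1
        exact absurd h1 hz'
    · by_cases hz' : z' ∈ g s '' closedBall (0 : X k) r
      · have h1 := hPin z' hz'
        rw [← h, Phi_off hz] at h1
        exact absurd h1 hz
      · rwa [Phi_off hz, Phi_off hz'] at h
  · intro z
    by_cases hz : z ∈ g s '' closedBall (0 : X k) r
    · rw [← hK] at hz
      obtain ⟨y, hy, rfl⟩ := hz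
      exact ⟨g s y, Phi_fib hg hF hs (mem_closedBall_zero_iff.1 hy)⟩
    · exact ⟨z, Phi_off hz⟩


/-- the uncurried family of bijections is smooth and regular off the singular point -/
theorem Phi_reg (hg : Fam k g ε) (hF : Res k g F ε ρ τ r r') {s : ℝ}
    (hs : |s| < 2 * τ) {z : X k} (hsz : s ≠ 0 ∨ z ≠ g 0 0) :
    ContDiffAt ℝ ∞ (fun p : ℝ × X k => Phi g F r p.1 p.2) (s, z) ∧
      Bijective (fderiv ℝ (Phi g F r s) z) := by
  have hP := fun (s' : ℝ) (hs' : |s'| < 2 * τ) (y : X k) (hy : ‖y‖ < ε) =>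
    Phi_fib' hg hF hs' hy
  obtain ⟨hτ, -, h2τ, hr'0, hr', hrε, hFs, hFb, hFi, heq, -, -⟩ := hF
  obtain ⟨hε, hgc, hgs, hinj⟩ := hg
  have hsε : |s| < ε := by linarith
  by_cases hz : z ∈ g s '' closedBall (0 : X k) r
  · obtain ⟨y, hy, rfl⟩ := hz
    rw [mem_closedBall_zero_iff] at hy
    have hyε : ‖y‖ < ε := by linarith
    have h0 : s ≠ 0 ∨ y ≠ 0 := by
      rcases hsz with h | h
      · exact Or.inl h
      · by_cases hs0 : s = 0
        · right; rintro rfl; exact h (by rw [hs0])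
        · exact Or.inl hs0
    obtain ⟨h1, h2⟩ := hgs s y hsε hyε h0
    obtain ⟨e, he1, he2, he3⟩ := fib_inv h1 h2
    have hsm : ContDiffAt ℝ ∞ (fun p : ℝ × X k => Phi g F r p.1 p.2) (s, g s y) := by
      have h3 : ContDiffAt ℝ ∞ (fun q => (fun p : ℝ × X k => F p.1 p.2) (e q)) (s, g s y) :=
        ContDiffAt.comp (g := fun p : ℝ × X k => F p.1 p.2) (s, g s y)
          (by rw [he2]; exact hFs s y hs hyε) he1
      refine h3.congr_of_eventuallyEq ?_
      have h4 : Tendsto e (𝓝 (s, g s y)) (𝓝 (s, y)) := by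
        have := he1.continuousAt
        unfold ContinuousAt at this
        rwa [he2] at this
      have h5 : ∀ᶠ p : ℝ × X k in 𝓝 (s, y), |p.1| < 2 * τ ∧ ‖p.2‖ < ε := by
        exact ((continuous_abs.comp continuous_fst).continuousAt.eventually_lt_const
            (show (abs ∘ Prod.fst) (s, y) < 2 * τ from hs)).and
          ((continuous_norm.comp continuous_snd).continuousAt.eventually_lt_const
            (show (norm ∘ Prod.snd) (s, y) < ε from hyε))
      filter_upwards [he3, h4.eventually h5] with q hq1 hq2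
      have h6 := congrArg Prod.fst hq1
      have h7 := congrArg Prod.snd hq1
      unfold fib at h6 h7
      simp only at h6 h7
      rw [← h7, ← h6]
      exact hP _ hq2.1 _ hq2.2
    refine ⟨hsm, ?_⟩
    have h8 : DifferentiableAt ℝ (Phi g F r s) (g s y) := by
      have h9 : ContDiffAt ℝ ∞ (Phi g F r s) (g s y) :=
        ContDiffAt.comp (g := fun p : ℝ × X k => Phi g F r p.1 p.2) (g s y) hsm
          (contDiffAt_const.prodMk contDiffAt_id)
      exact h9.differentiableAt (by simp)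
    have h10 : DifferentiableAt ℝ (g s) y := by
      have h11 : ContDiffAt ℝ ∞ (g s) y :=
        ContDiffAt.comp (g := fun p : ℝ × X k => g p.1 p.2) y h1
          (contDiffAt_const.prodMk contDiffAt_id)
      exact h11.differentiableAt (by simp)
    have h12 : (fun y' => Phi g F r s (g s y')) =ᶠ[𝓝 y] F s := by
      filter_upwards [continuous_norm.continuousAt.eventually_lt_const hyε] with y' hy'
      exact hP s hs y' hy'
    have h13 : (fderiv ℝ (Phi g F r s) (g s y)).comp (fderiv ℝ (g s) y) = fderiv ℝ (F s) y := by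
      rw [← h12.fderiv_eq]
      exact (fderiv_comp y h8 h10).symm
    have h14 := hFb s y hs hy
    rw [← h13] at h14
    have h15 : Bijective (fun v => fderiv ℝ (Phi g F r s) (g s y) (fderiv ℝ (g s) y v)) := h14
    constructor
    · intro a b hab
      obtain ⟨a', rfl⟩ := h2.2 a
      obtain ⟨b', rfl⟩ := h2.2 b
      rw [h15.1 hab]
    · intro b
      obtain ⟨a, ha⟩ := h15.2 b
      exact ⟨_, ha⟩
  · -- off the image
    obtain ⟨s1, hs1, hs2⟩ := exists_between hs
    have hcomp : IsClosed (fib g '' (Icc (-s1) s1 ×ˢ closedBall (0 : X k) r)) := by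
      refine ((isCompact_Icc.prod (isCompact_closedBall _ _)).image_of_continuousOn ?_).isClosed
      rintro ⟨t, y⟩ ⟨ht, hy⟩
      rw [mem_closedBall_zero_iff] at hy
      have ht' : |t| ≤ s1 := abs_le.2 ht
      simp only at hy
      exact (continuousAt_fst.prodMk (hgc t y (by linarith) (by linarith))).continuousWithinAt
    have hnot : (s, z) ∉ fib g '' (Icc (-s1) s1 ×ˢ closedBall (0 : X k) r) := by
      rintro ⟨⟨t, y⟩, ⟨ht, hy⟩, h⟩
      have h6 := congrArg Prod.fst h
      have h7 := congrArg Prod.snd h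
      unfold fib at h6 h7
      simp only at h6 h7 hy
      rw [h6] at h7
      exact hz ⟨y, hy, h7⟩
    have hev : ∀ᶠ p : ℝ × X k in 𝓝 (s, z), Phi g F r p.1 p.2 = p.2 := by
      filter_upwards [hcomp.isOpen_compl.mem_nhds hnot,
        (continuous_abs.comp continuous_fst).continuousAt.eventually_lt_const
          (show (abs ∘ Prod.fst) (s, z) < s1 from hs1)] with p hp hp1
      refine Phi_off ?_
      rintro ⟨y, hy, h⟩
      refine hp ⟨(p.1, y), ⟨abs_le.1 hp1.le, hy⟩, ?_⟩
      unfold fib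
      simp only
      rw [h]
    refine ⟨contDiffAt_snd.congr_of_eventuallyEq hev, ?_⟩
    have hev2 : Phi g F r s =ᶠ[𝓝 z] id := by
      have h1 : Tendsto (fun w : X k => (s, w)) (𝓝 z) (𝓝 (s, z)) :=
        (continuous_const.prodMk continuous_id).tendsto z
      filter_upwards [h1.eventually hev] with w hw
      exact hw
    rw [hev2.fderiv_eq, fderiv_id]
    exact bijective_id

/-- continuity at the singular point -/
theorem Phi_cont0 (hk : 2 ≤ k) (hg : Fam k g ε) (hF : Res k g F ε ρ τ r r') :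
    ContinuousAt (fun p : ℝ × X k => Phi g F r p.1 p.2) (0, g 0 0) := by
  have hP := fun (s' : ℝ) (hs' : |s'| < 2 * τ) (y : X k) (hy : ‖y‖ ≤ r) =>
    Phi_fib hg hF hs' hy
  have hkey := fun (s' : ℝ) (hs' : |s'| < 2 * τ) => key hk hg hF hs'
  obtain ⟨hτ, -, h2τ, hr'0, hr', hrε, hFs, hFb, hFi, heq, -, -⟩ := hF
  obtain ⟨hε, hgc, hgs, hinj⟩ := hg
  have hr : 0 < r := by linarith
  -- an open set
  have hopen : IsOpen (fib F '' (Ioo (-τ) τ ×ˢ ball (0 : X k) r)) := by
    refine open_image (isOpen_Ioo.prod isOpen_ball) ?_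
    rintro ⟨t, y⟩ ⟨ht, hy⟩
    have ht' : |t| < τ := abs_lt.2 ht
    simp only [mem_ball_zero_iff] at hy
    exact fib_reg (hFs t y (by linarith) (by linarith)) (hFb t y (by linarith) hy.le)
  have hmem : (0, g 0 0) ∈ fib F '' (Ioo (-τ) τ ×ˢ ball (0 : X k) r) := by
    have h1 : g 0 0 ∈ g 0 '' ball (0 : X k) r := ⟨0, mem_ball_self hr, rfl⟩
    rw [← hkey 0 (by rw [abs_zero]; linarith)] at h1
    obtain ⟨y, hy, h2⟩ := h1
    exact ⟨(0, y), ⟨⟨by linarith, hτ⟩, hy⟩, by unfold fib; simp only; rw [h2]⟩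
  rw [ContinuousAt, tendsto_def]
  intro N hN
  obtain ⟨N', hN'N, hN'o, hN'm⟩ := _root_.mem_nhds_iff.1 hN
  have hval : Phi g F r 0 (g 0 0) = F 0 0 := hP 0 (by rw [abs_zero]; linarith) 0
    (by rw [norm_zero]; exact hr.le)
  simp only [hval] at hN'm
  -- a compact set
  have hK0 : IsCompact (Icc (-τ) τ ×ˢ closedBall (0 : X k) r) :=
    isCompact_Icc.prod (isCompact_closedBall _ _)
  have hFc : ContinuousOn (fun p : ℝ × X k => F p.1 p.2) (Icc (-τ) τ ×ˢ closedBall (0 : X k) r) := by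
    rintro ⟨t, y⟩ ⟨ht, hy⟩
    have ht' : |t| ≤ τ := abs_le.2 ht
    simp only [mem_closedBall_zero_iff] at hy
    exact (hFs t y (by linarith) (by linarith)).continuousAt.continuousWithinAt
  have hgc' : ContinuousOn (fib g) (Icc (-τ) τ ×ˢ closedBall (0 : X k) r) := by
    rintro ⟨t, y⟩ ⟨ht, hy⟩
    have ht' : |t| ≤ τ := abs_le.2 ht
    simp only [mem_closedBall_zero_iff] at hy
    exact (continuousAt_fst.prodMk (hgc t y (by linarith) (by linarith))).continuousWithinAt
  set K1 : Set (ℝ × X k) := (Icc (-τ) τ ×ˢ closedBall (0 : X k) r) ∩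
    (fun p : ℝ × X k => F p.1 p.2) ⁻¹' N'ᶜ with hK1
  have hK1c : IsCompact K1 := by
    refine hK0.of_isClosed_subset ?_ inter_subset_left
    exact hFc.preimage_isClosed_of_isClosed hK0.isClosed hN'o.isClosed_compl
  have hK2 : IsClosed (fib g '' K1) :=
    (hK1c.image_of_continuousOn (hgc'.mono inter_subset_left)).isClosed
  have hnot : (0, g 0 0) ∉ fib g '' K1 := by
    rintro ⟨⟨t, y⟩, ⟨⟨ht, hy⟩, hn⟩, h⟩
    have h6 := congrArg Prod.fst h
    have h7 := congrArg Prod.snd h
    unfold fib at h6 h7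
    simp only at h6 h7 hy
    subst h6
    have h8 := hinj 0 (by rw [abs_zero]; exact hε) (by
      rw [mem_closedBall_zero_iff] at hy; rw [mem_ball_zero_iff]; linarith) (mem_ball_self hε) h7
    rw [h8] at hn
    exact hn hN'm
  filter_upwards [hopen.mem_nhds hmem, hK2.isOpen_compl.mem_nhds hnot] with q hq1 hq2
  obtain ⟨⟨t, y⟩, ⟨ht, hy⟩, rfl⟩ := hq1
  have ht' : |t| < τ := abs_lt.2 ht
  have h1 : F t y ∈ F t '' ball (0 : X k) r := ⟨y, hy, rfl⟩
  rw [hkey t (by linarith)] at h1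
  obtain ⟨y', hy', h2⟩ := h1
  rw [mem_ball_zero_iff] at hy'
  have h3 : Phi g F r t (F t y) = F t y' := by
    rw [← h2]
    exact hP t (by linarith) y' hy'.le
  show Phi g F r t (F t y) ∈ N
  rw [h3]
  by_contra hcon
  refine hq2 ⟨(t, y'), ⟨⟨⟨ht.1.le, ht.2.le⟩, ?_⟩, fun h => hcon (hN'N h)⟩, ?_⟩
  · simp only [mem_closedBall_zero_iff]; exact hy'.le
  · unfold fib
    simp only
    rw [h2]

end

theorem main : S_P1B := by
  intro k g F ε ρ τ r r' hk hg hF
  have hτ : 0 < τ := hF.1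
  obtain ⟨m1, m2, m3, m4⟩ := mu_facts hτ
  have hm : ∀ t, |mu τ t| < 2 * τ := fun t => by have := m1 t; linarith
  have hms : ContDiff ℝ ∞ (fun p : ℝ × X k => (mu τ p.1, p.2)) :=
    ((mu_smooth τ).comp contDiff_fst).prodMk contDiff_snd
  have hpt : ∀ (t : ℝ) (z : X k), (t ≠ 0 ∨ z ≠ g 0 0) → (mu τ t ≠ 0 ∨ z ≠ g 0 0) := by
    intro t z h
    rcases h with h | h
    · exact Or.inl fun h2 => h (m2 t h2)
    · exact Or.inr h
  have h0 : mu τ 0 = 0 := mu_mid hτ (by rw [abs_zero]; linarith)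
  have hreg : ∀ t z, (t ≠ 0 ∨ z ≠ g 0 0) →
      ContDiffAt ℝ ∞ (fun p : ℝ × X k => Phi g F r (mu τ p.1) p.2) (t, z) ∧
        Bijective (fderiv ℝ (Phi g F r (mu τ t)) z) := by
    intro t z h
    obtain ⟨h1, h2⟩ := Phi_reg hg hF (hm t) (hpt t z h)
    exact ⟨ContDiffAt.comp (g := fun p : ℝ × X k => Phi g F r p.1 p.2) (t, z) h1 hms.contDiffAt, h2⟩
  refine ⟨fun t => Phi g F r (mu τ t), ⟨fun t => Phi_bij hk hg hF (hm t), ?_, hreg, ?_, ?_⟩, ?_, ?_⟩
  · rw [continuous_iff_continuousAt]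
    rintro ⟨t, z⟩
    by_cases h : t ≠ 0 ∨ z ≠ g 0 0
    · exact (hreg t z h).1.continuousAt
    · push Not at h
      obtain ⟨rfl, rfl⟩ := h
      refine ContinuousAt.comp (g := fun p : ℝ × X k => Phi g F r p.1 p.2)
        (f := fun p : ℝ × X k => (mu τ p.1, p.2)) ?_ hms.continuous.continuousAt
      simp only [h0]
      exact Phi_cont0 hk hg hF
  · rintro t z (h | h)
    · show Phi g F r (mu τ t) z = z
      by_cases hz : z ∈ g (mu τ t) '' closedBall (0 : X k) r
      · obtain ⟨y, hy, rfl⟩ := hz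
        rw [mem_closedBall_zero_iff] at hy
        rw [Phi_fib hg hF (hm t) hy]
        obtain ⟨-, -, -, -, -, hrε, -, -, -, -, heq, -⟩ := hF
        exact heq _ y (hm t) (m3 t h) (by linarith)
      · exact Phi_off hz
    · refine Phi_off ?_
      rintro ⟨y, hy, rfl⟩
      rw [mem_closedBall_zero_iff] at hy
      have h1 := hF.2.2.2.2.2.2.2.2.2.2.2 (mu τ t) y (hm t) hy
      linarith
  · intro t z h
    show Phi g F r (mu τ t) z = Phi g F r (mu τ τ) z
    rw [m4 t h]
  · have hε : 0 < ε := hg.1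
    have h1 : ContDiffAt ℝ ∞ (fun p : ℝ × X k => F p.1 p.2) (0, 0) :=
      hF.2.2.2.2.2.2.1 0 0 (by rw [abs_zero]; linarith) (by rw [norm_zero]; exact hε)
    refine h1.congr_of_eventuallyEq ?_
    have h2 : ∀ᶠ p : ℝ × X k in 𝓝 (0, 0), |p.1| < 3 * τ / 4 ∧ ‖p.2‖ < ε := by
      refine ((continuous_abs.comp continuous_fst).continuousAt.eventually_lt_const
        (show (abs ∘ Prod.fst) ((0 : ℝ), (0 : X k)) < 3 * τ / 4 by
          simp only [comp_apply, abs_zero]; linarith)).and
        ((continuous_norm.comp continuous_snd).continuousAt.eventually_lt_const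
        (show (norm ∘ Prod.snd) ((0 : ℝ), (0 : X k)) < ε by
          simp only [comp_apply, norm_zero]; exact hε))
    filter_upwards [h2] with p hp
    show Phi g F r (mu τ p.1) (g p.1 p.2) = F p.1 p.2
    rw [mu_mid hτ hp.1.le]
    exact Phi_fib' hg hF (by linarith [hp.1]) hp.2
  · have hε : 0 < ε := hg.1
    have h1 : (fun y => Phi g F r (mu τ 0) (g 0 y)) =ᶠ[𝓝 0] F 0 := by
      filter_upwards [continuous_norm.continuousAt.eventually_lt_const
        (show ‖(0 : X k)‖ < ε by rw [norm_zero]; exact hε)] with y hy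
      rw [h0]
      exact Phi_fib' hg hF (by rw [abs_zero]; linarith) hy
    show Bijective (fderiv ℝ (fun y => Phi g F r (mu τ 0) (g 0 y)) 0)
    rw [h1.fderiv_eq]
    have hr : 0 < r := by
      have h3 := hF.2.2.2.1
      have h4 := hF.2.2.2.2.1
      linarith
    exact hF.2.2.2.2.2.2.2.1 0 0 (by rw [abs_zero]; linarith) (by rw [norm_zero]; exact hr.le)

end Pool.Agent.N550.OC.P1B
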