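import Pool.Agent.N550.OC.Stm
import Pool.Agent.N550.BC.C2a

/-!
# Project OC, leaf P2: assembly (helper918)
-/

set_option autoImplicit false

open Set Filter Topology Metric Function MeasureTheory
open scoped Manifold ContDiff

noncomputable section

namespace Pool.Agent.N550.OC.P2

open Pool.Agent.Y522 Pool.Agent.N550.KH Pool.Agent.N550.BC Pool.Agent.Y833.SH

/-- the point with first coordinate `t` and last coordinates `y` -/
def Jc : (ℝ × E 3) →L[ℝ] E (1 + 3) :=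
  LinearMap.toContinuousLinearMap
    { toFun := fun q => jn 1 3 (WithLp.toLp 2 (fun _ => q.1)) q.2
      map_add' := fun x y => by
        ext i
        refine Fin.addCases (fun i => ?_) (fun i => ?_) i <;> simp [jn]
      map_smul' := fun c x => by
        ext i
        refine Fin.addCases (fun i => ?_) (fun i => ?_) i <;> simp [jn] }

lemma Jc_eq (q : ℝ × E 3) : Jc q = jn 1 3 (WithLp.toLp 2 (fun _ => q.1)) q.2 := rfl

lemma up_Jc (q : ℝ × E 3) : up 1 3 (Jc q) 0 = q.1 := by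
  rw [Jc_eq, up_jn]

lemma vp_Jc (q : ℝ × E 3) : vp 1 3 (Jc q) = q.2 := by
  rw [Jc_eq, vp_jn]

lemma jn_eq (u : E 1) (v : E 3) : jn 1 3 u v = Jc (u 0, v) := by
  rw [Jc_eq]
  congr 1
  ext i
  have : i = 0 := Subsingleton.elim _ _
  subst this
  rfl

lemma Jc_up_vp (z : E (1 + 3)) : Jc (up 1 3 z 0, vp 1 3 z) = z := by
  rw [← jn_eq, jn_up_vp]

lemma ext_uv {z w : E (1 + 3)} (h1 : up 1 3 z 0 = up 1 3 w 0) (h2 : vp 1 3 z = vp 1 3 w) : z = w := by
  rw [← Jc_up_vp z, ← Jc_up_vp w, h1, h2]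

lemma Jc_norm (q : ℝ × E 3) : ‖Jc q‖ ≤ |q.1| + ‖q.2‖ := by
  have h1 : ‖Jc q‖ ^ 2 = q.1 ^ 2 + ‖q.2‖ ^ 2 := by
    rw [EuclideanSpace.norm_sq_eq, EuclideanSpace.norm_sq_eq, Fin.sum_univ_add]
    congr 1
    simp [Jc_eq, jn]
  have h2 : q.1 ^ 2 = |q.1| ^ 2 := (sq_abs _).symm
  have h3 := abs_nonneg q.1
  have h4 := norm_nonneg q.2
  refine abs_le_of_sq_le_sq' ?_ (by positivity) |>.2
  nlinarith

lemma bij_of_inj {n : ℕ} {A : E n →L[ℝ] E n} (h : ∀ v, A v = 0 → v = 0) : Bijective A := by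
  have h1 : Injective (A : E n →ₗ[ℝ] E n) := by
    rw [← LinearMap.ker_eq_bot, LinearMap.ker_eq_bot']
    exact h
  exact ⟨h1, (LinearMap.injective_iff_surjective (f := (A : E n →ₗ[ℝ] E n))).1 h1⟩

section fam

/-- the calculus of the family -/
lemma slice {f : E (1 + 3) → E (1 + 3)} {c : ℝ} {t : ℝ} {y : E 3}
    (hf : ContDiffAt ℝ ∞ f (Jc (t, y))) (hb : Bijective (fderiv ℝ f (Jc (t, y))))
    (hu : ∀ᶠ z in 𝓝 (Jc (t, y)), up 1 3 (f z) 0 = c + up 1 3 z 0) :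
    ContDiffAt ℝ ∞ (fun p : ℝ × E 3 => vp 1 3 (f (Jc (p.1, p.2)))) (t, y) ∧
      Bijective (fderiv ℝ (fun y' => vp 1 3 (f (Jc (t, y')))) y) := by
  have hJ : ContDiffAt ℝ ∞ (fun p : ℝ × E 3 => Jc (p.1, p.2)) (t, y) := Jc.contDiff.contDiffAt
  refine ⟨(vp 1 3).contDiff.contDiffAt.comp _ (ContDiffAt.comp (g := f) _ hf hJ), ?_⟩
  have hd : HasFDerivAt f (fderiv ℝ f (Jc (t, y))) (Jc (t, y)) :=
    (hf.differentiableAt (by simp)).hasFDerivAt
  -- the first coordinate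
  have h1 : ∀ w, up 1 3 (fderiv ℝ f (Jc (t, y)) w) 0 = up 1 3 w 0 := by
    let P : E (1 + 3) →L[ℝ] ℝ := (EuclideanSpace.proj (0 : Fin 1)).comp (up 1 3)
    have a1 : HasFDerivAt (fun z => P (f z)) (P.comp (fderiv ℝ f (Jc (t, y)))) (Jc (t, y)) :=
      P.hasFDerivAt.comp _ hd
    have a2 : HasFDerivAt (fun z => c + P z) P (Jc (t, y)) := P.hasFDerivAt.const_add c
    have a3 : HasFDerivAt (fun z => P (f z)) P (Jc (t, y)) := by
      refine a2.congr_of_eventuallyEq ?_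
      filter_upwards [hu] with z hz
      exact hz
    have a4 := a1.unique a3
    intro w
    exact DFunLike.congr_fun a4 w
  have h2 : HasFDerivAt (fun y' : E 3 => Jc (t, y')) (Jc.comp (ContinuousLinearMap.inr ℝ ℝ (E 3))) y :=
    Jc.hasFDerivAt.comp y (hasFDerivAt_prodMk_right t y)
  have h3 : HasFDerivAt (fun y' : E 3 => vp 1 3 (f (Jc (t, y'))))
      ((vp 1 3).comp ((fderiv ℝ f (Jc (t, y))).comp (Jc.comp (ContinuousLinearMap.inr ℝ ℝ (E 3))))) y :=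
    (vp 1 3).hasFDerivAt.comp y (hd.comp y h2)
  rw [h3.fderiv]
  apply bij_of_inj
  intro v hv
  have h4 : vp 1 3 (fderiv ℝ f (Jc (t, y)) (Jc (0, v))) = 0 := hv
  have h5 : fderiv ℝ f (Jc (t, y)) (Jc (0, v)) = 0 := by
    apply ext_uv
    · rw [h1, up_Jc]
      simp
    · rw [h4, map_zero]
  have h6 : Jc (0, v) = 0 := hb.1 (by rw [h5, map_zero])
  have h7 := vp_Jc (0, v)
  rw [h6, map_zero] at h7
  exact h7.symm

end fam


section psi

variable {N : ℝ × E 3 → E 3} {c : ℝ}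

/-- the map in the coordinates -/
lemma psi (hN : ContDiffAt ℝ ∞ N (0, 0)) (hb : Bijective (fderiv ℝ (fun y => N (0, y)) 0)) :
    ContDiffAt ℝ ∞ (fun z : E (1 + 3) => Jc (c + up 1 3 z 0, N (up 1 3 z 0, vp 1 3 z))) 0 ∧
      Bijective (fderiv ℝ (fun z : E (1 + 3) => Jc (c + up 1 3 z 0, N (up 1 3 z 0, vp 1 3 z))) 0) := by
  let P : E (1 + 3) →L[ℝ] ℝ := (EuclideanSpace.proj (0 : Fin 1)).comp (up 1 3)
  have hP : ∀ z, P z = up 1 3 z 0 := fun z => rfl
  let Q : E (1 + 3) →L[ℝ] ℝ × E 3 := P.prod (vp 1 3)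
  have hQ : ∀ z, Q z = (up 1 3 z 0, vp 1 3 z) := fun z => rfl
  have hQ0 : Q 0 = (0, 0) := map_zero Q
  have hN' : ContDiffAt ℝ ∞ N (Q 0) := by rw [hQ0]; exact hN
  have h1 : ContDiffAt ℝ ∞ (fun z : E (1 + 3) => N (Q z)) 0 :=
    ContDiffAt.comp (g := N) _ hN' Q.contDiff.contDiffAt
  have h2 : ContDiffAt ℝ ∞ (fun z : E (1 + 3) => c + P z) 0 := contDiffAt_const.add P.contDiff.contDiffAt
  have h3 : ContDiffAt ℝ ∞ (fun z : E (1 + 3) => Jc (c + P z, N (Q z))) 0 :=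
    Jc.contDiff.contDiffAt.comp _ (h2.prodMk h1)
  refine ⟨h3, ?_⟩
  have hd : HasFDerivAt N (fderiv ℝ N (0, 0)) (Q 0) := by
    rw [hQ0]
    exact (hN.differentiableAt (by simp)).hasFDerivAt
  have h4 : HasFDerivAt (fun z : E (1 + 3) => N (Q z)) ((fderiv ℝ N (0, 0)).comp Q) 0 :=
    hd.comp 0 Q.hasFDerivAt
  have h5 : HasFDerivAt (fun z : E (1 + 3) => c + P z) P 0 := P.hasFDerivAt.const_add c
  have h6 : HasFDerivAt (fun z : E (1 + 3) => Jc (c + P z, N (Q z)))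
      (Jc.comp (P.prod ((fderiv ℝ N (0, 0)).comp Q))) 0 :=
    Jc.hasFDerivAt.comp 0 (h5.prodMk h4)
  have h7 : fderiv ℝ (fun z : E (1 + 3) => Jc (c + up 1 3 z 0, N (up 1 3 z 0, vp 1 3 z))) 0 =
      Jc.comp (P.prod ((fderiv ℝ N (0, 0)).comp Q)) := h6.fderiv
  rw [h7]
  apply bij_of_inj
  intro v hv
  have h8 : Jc (P v, fderiv ℝ N (0, 0) (Q v)) = 0 := hv
  have a1 := up_Jc (P v, fderiv ℝ N (0, 0) (Q v))
  have a2 := vp_Jc (P v, fderiv ℝ N (0, 0) (Q v))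
  rw [h8, map_zero] at a1 a2
  have a3 : up 1 3 v 0 = 0 := a1.symm
  have a4 : fderiv ℝ N (0, 0) (Q v) = 0 := a2.symm
  rw [hQ, a3] at a4
  have h9 : HasFDerivAt (fun y : E 3 => N (0, y))
      ((fderiv ℝ N (0, 0)).comp (ContinuousLinearMap.inr ℝ ℝ (E 3))) 0 := by
    have hd' : HasFDerivAt N (fderiv ℝ N (0, 0)) ((0 : ℝ), (0 : E 3)) :=
      (hN.differentiableAt (by simp)).hasFDerivAt
    exact hd'.comp 0 (hasFDerivAt_prodMk_right (0 : ℝ) (0 : E 3))
  rw [h9.fderiv] at hb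
  have a5 : vp 1 3 v = 0 := hb.1 (by
    rw [map_zero]
    exact a4)
  apply ext_uv
  · rw [a3, map_zero]
    rfl
  · rw [a5, map_zero]

end psi

theorem main : S_P1A → S_P1B → S_A → S_P2A → S_P2 := by
  intro hP1A hP1B hSA hP2A M _ _ _ h x₀ hHB hx₀ hreg hu hu0
  obtain ⟨hemb, hrange⟩ := hHB
  let H₀ : M ≃ₜ closedBall (0 : E 4) 1 := hemb.toHomeomorph.trans (Homeomorph.setCongr hrange)
  have hHh : ∀ x, (H₀ x : E 4) = h x := fun x => rfl
  have : T2Space M := H₀.symm.t2Space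
  have : CompactSpace (closedBall (0 : E 4) 1) :=
    isCompact_iff_compactSpace.1 (isCompact_closedBall 0 1)
  have : CompactSpace M := H₀.symm.compactSpace
  have hE : Nontrivial (E 4) := inferInstance
  have hhc : Continuous h := hemb.continuous
  have hp1 : ‖h x₀‖ < 1 := (int_iff (𝓡∂ 4) hE H₀ x₀).1 hx₀
  have hmem : ∀ x, h x ∈ closedBall (0 : E 4) 1 := fun x => by
    rw [← hrange]
    exact mem_range_self x
  obtain ⟨p, hp⟩ : ∃ p : E (1 + 3), p = h x₀ := ⟨_, rfl⟩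
  obtain ⟨ρ, hρ, hA⟩ := hSA p (by rw [hp]; exact hp1)
  obtain ⟨a, δ, hδ, a0, ainj, ald⟩ := hP2A M (fun x => h x 0) x₀ hx₀ hu hu0
  -- the map in the coordinates
  obtain ⟨f, hf⟩ : ∃ f : E (1 + 3) → E (1 + 3), f = fun z => h (a z) := ⟨_, rfl⟩
  have hfz : ∀ z, f z = h (a z) := fun z => by rw [hf]
  have f0 : f 0 = p := by rw [hfz, a0, hp]
  have hball : ∀ z ∈ ball (0 : E (1 + 3)) δ, ball (0 : E (1 + 3)) δ ∈ 𝓝 z := fun z hz => isOpen_ball.mem_nhds hz
  have hfu : ∀ z ∈ ball (0 : E (1 + 3)) δ, up 1 3 (f z) 0 = up 1 3 p 0 + up 1 3 z 0 := by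
    intro z hz
    have h1 := (ald z hz).2.2
    have h2 : up 1 3 (f z) 0 = h (a z) 0 := by rw [hfz]; rfl
    have h3 : up 1 3 p 0 = h x₀ 0 := by rw [hp]; rfl
    rw [h2, h3]
    exact h1
  have hane : ∀ z ∈ ball (0 : E (1 + 3)) δ, z ≠ 0 → a z ≠ x₀ := by
    intro z hz hz0 hcon
    rw [← a0] at hcon
    exact hz0 (ainj hz (mem_ball_self hδ) hcon)
  have hfs : ∀ z ∈ ball (0 : E (1 + 3)) δ, z ≠ 0 → ContDiffAt ℝ ∞ f z ∧ Bijective (fderiv ℝ f z) := by
    intro z hz hz0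
    have h1 : ContMDiffAt (𝓡∂ 4) (𝓡 4) ∞ h (a z) := (hreg _ (hane z hz hz0)).1.self_of_nhds
    have h2 : ContMDiffAt (𝓡 4) (𝓡 4) ∞ (fun z => h (a z)) z :=
      ContMDiffAt.comp (g := h) z h1 (ald z hz).1.contMDiffAt
    have h3 : ContDiffAt ℝ ∞ f z := by
      rw [hf]
      exact contMDiffAt_iff_contDiffAt.1 h2
    refine ⟨h3, ?_⟩
    have h4 : mfderiv (𝓡 4) (𝓡 4) (fun z => h (a z)) z =
        (mfderiv (𝓡∂ 4) (𝓡 4) h (a z)).comp (mfderiv (𝓡 4) (𝓡∂ 4) a z) :=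
      mfderiv_comp z (h1.mdifferentiableAt (by simp)) ((ald z hz).1.mdifferentiableAt (by simp))
    have h5 : fderiv ℝ f z = mfderiv (𝓡 4) (𝓡 4) (fun z => h (a z)) z := by
      rw [hf]
      exact mfderiv_eq_fderiv.symm
    have h6 : Bijective (mfderiv (𝓡 4) (𝓡∂ 4) a z) := by
      rw [← (ald z hz).1.mfderivToContinuousLinearEquiv_coe (by simp)]
      exact ((ald z hz).1.mfderivToContinuousLinearEquiv (by simp)).bijective
    rw [h5, h4]
    exact (hreg _ (hane z hz hz0)).2.comp h6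
  have hfc : ∀ z ∈ ball (0 : E (1 + 3)) δ, ContinuousAt f z := by
    intro z hz
    rw [hf]
    exact hhc.continuousAt.comp (ald z hz).1.contMDiffAt.continuousAt
  have hfinj : InjOn f (ball (0 : E (1 + 3)) δ) := by
    intro z hz w hw hzw
    rw [hfz, hfz] at hzw
    exact ainj hz hw (hemb.injective hzw)
  -- the family
  obtain ⟨g, hg⟩ : ∃ g : ℝ → E 3 → E 3, g = fun t y => vp 1 3 (f (Jc (t, y))) := ⟨_, rfl⟩
  have hgt : ∀ t y, g t y = vp 1 3 (f (Jc (t, y))) := fun t y => by rw [hg]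
  have hin : ∀ t (y : E 3), |t| < δ / 2 → ‖y‖ < δ / 2 → Jc (t, y) ∈ ball (0 : E (1 + 3)) δ := by
    intro t y ht hy
    rw [mem_ball_zero_iff]
    have := Jc_norm (t, y)
    simp only at this
    linarith
  have hg00 : g 0 0 = vp 1 3 p := by
    rw [hgt]
    have : Jc ((0 : ℝ), (0 : E 3)) = 0 := map_zero Jc
    rw [this, f0]
  have hFam : Fam 3 g (δ / 2) := by
    refine ⟨by positivity, ?_, ?_, ?_⟩
    · intro t y ht hy
      rw [hg]
      have h1 : ContinuousAt (fun q : ℝ × E 3 => Jc (q.1, q.2)) (t, y) := Jc.continuous.continuousAt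
      exact (vp 1 3).continuous.continuousAt.comp
        (ContinuousAt.comp_of_eq (g := f) (hfc _ (hin t y ht hy)) h1 rfl)
    · intro t y ht hy hne
      have h1 := hin t y ht hy
      have h2 : Jc (t, y) ≠ 0 := by
        intro h0
        have a1 := up_Jc (t, y)
        have a2 := vp_Jc (t, y)
        rw [h0, map_zero] at a1 a2
        rcases hne with h | h
        · exact h a1.symm
        · exact h a2.symm
      obtain ⟨h3, h4⟩ := hfs _ h1 h2
      have h5 := slice h3 h4 (c := up 1 3 p 0) (by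
        filter_upwards [hball _ h1] with z hz
        exact hfu z hz)
      rw [hg]
      exact h5
    · intro t ht y hy y' hy' hyy
      rw [mem_ball_zero_iff] at hy hy'
      rw [hgt, hgt] at hyy
      have h1 := hin t y ht hy
      have h2 := hin t y' ht hy'
      have h3 : Jc (t, y) = Jc (t, y') := by
        apply hfinj h1 h2
        apply ext_uv _ hyy
        rw [hfu _ h1, hfu _ h2, up_Jc, up_Jc]
      have h4 := vp_Jc (t, y)
      rw [h3, vp_Jc] at h4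
      exact h4.symm
  obtain ⟨F, τ, r, r', hRes⟩ := hP1A 3 g (δ / 2) ρ (by norm_num) hρ hFam
  obtain ⟨φ, hCyl, hφs, hφb⟩ := hP1B 3 g F (δ / 2) ρ τ r r' (by norm_num) hFam hRes
  rw [hg00] at hCyl
  obtain ⟨A, hAc, hAb, hAs, hAp⟩ := hA φ τ hRes.1 hRes.2.1 hCyl
  -- the map H
  have hHc : Continuous (fun x => A (h x)) := hAc.comp_continuous hhc hmem
  have hHi : Injective (fun x => A (h x)) := fun x y hxy => hemb.injective (hAb.injOn (hmem x) (hmem y) hxy)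
  have hHr : range (fun x => A (h x)) = closedBall 0 1 := by
    have h1 : range (fun x => A (h x)) = A '' range h := range_comp A h
    rw [h1]
    exact (congrArg (A '' ·) hrange).trans hAb.image_eq
  -- off x₀
  have hoff : ∀ x, x ≠ x₀ → ContMDiffAt (𝓡∂ 4) (𝓡 4) ∞ (fun x => (A (h x) : E 4)) x ∧
      Bijective (mfderiv (𝓡∂ 4) (𝓡 4) (fun x => (A (h x) : E 4)) x) := by
    intro x hx
    have hxp : h x ≠ p := by
      rw [hp]
      exact fun hc => hx (hemb.injective hc)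
    obtain ⟨h1, h2⟩ := hAs (h x) (hmem x) hxp
    have h3 : ContMDiffAt (𝓡∂ 4) (𝓡 4) ∞ h x := (hreg x hx).1.self_of_nhds
    have h4 : ContMDiffAt (𝓡 4) (𝓡 4) ∞ (A : E 4 → E 4) (h x) := h1.contMDiffAt
    refine ⟨ContMDiffAt.comp (g := (A : E 4 → E 4)) x h4 h3, ?_⟩
    have h5 : mfderiv (𝓡∂ 4) (𝓡 4) (fun x => (A (h x) : E 4)) x =
        (mfderiv (𝓡 4) (𝓡 4) (A : E 4 → E 4) (h x)).comp (mfderiv (𝓡∂ 4) (𝓡 4) h x) :=
      mfderiv_comp x (h4.mdifferentiableAt (by simp)) (h3.mdifferentiableAt (by simp))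
    have h6 : mfderiv (𝓡 4) (𝓡 4) (A : E 4 → E 4) (h x) = fderiv ℝ A (h x) := mfderiv_eq_fderiv
    rw [h5, h6]
    have h7 := h2.comp (hreg x hx).2
    exact h7
  -- near the singular point
  obtain ⟨hΨ1, hΨ2⟩ := psi (N := fun q : ℝ × E 3 => φ q.1 (g q.1 q.2)) (c := up 1 3 p 0) hφs hφb
  have h0b : (0 : E (1 + 3)) ∈ ball (0 : E (1 + 3)) δ := mem_ball_self hδ
  have hΨ : (fun z => A (f z)) =ᶠ[𝓝 0]
      fun z : E (1 + 3) => Jc (up 1 3 p 0 + up 1 3 z 0, φ (up 1 3 z 0) (g (up 1 3 z 0) (vp 1 3 z))) := by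
    have h1 : ∀ᶠ z in 𝓝 (0 : E (1 + 3)), A (f z) =
        jn 1 3 (up 1 3 (f z)) (φ (up 1 3 (f z) 0 - up 1 3 p 0) (vp 1 3 (f z))) := by
      have h2 := hfc 0 h0b
      have h3 : Tendsto f (𝓝 0) (𝓝 p) := by
        have := h2.tendsto
        rwa [f0] at this
      exact h3.eventually hAp
    filter_upwards [h1, hball 0 h0b] with z h2 h3
    rw [h2, jn_eq, hfu z h3, add_sub_cancel_left, hgt, Jc_up_vp]
  have hΨs : ContDiffAt ℝ ∞ (fun z => A (f z)) 0 := hΨ1.congr_of_eventuallyEq hΨ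
  have hΨb : Bijective (fderiv ℝ (fun z => A (f z)) 0) := by
    rw [hΨ.fderiv_eq]
    exact hΨ2
  have hl := (ald 0 h0b).1
  have hx₀s : ContMDiffAt (𝓡∂ 4) (𝓡 4) ∞ (fun x => (A (h x) : E 4)) x₀ := by
    have h1 : (fun x => (A (h x) : E 4)) =ᶠ[𝓝 x₀] fun x => (fun z => A (f z)) (hl.localInverse x) := by
      have h2 := hl.localInverse_eventuallyEq_right
      rw [a0] at h2
      filter_upwards [h2] with x hx
      have h3 : a (hl.localInverse x) = x := hx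
      show A (h x) = A (f (hl.localInverse x))
      rw [hfz, h3]
    refine ContMDiffAt.congr_of_eventuallyEq ?_ h1
    have h4 : ContMDiffAt (𝓡∂ 4) (𝓡 4) ∞ hl.localInverse x₀ := by
      have := hl.localInverse_contMDiffAt
      rwa [a0] at this
    have h5 : hl.localInverse x₀ = 0 := by
      have := hl.localInverse_left_inv hl.localInverse_mem_target
      rwa [a0] at this
    have h6 : ContMDiffAt (𝓡 4) (𝓡 4) ∞ (fun z : E 4 => (A (f z) : E 4)) (hl.localInverse x₀) := by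
      rw [h5]
      exact hΨs.contMDiffAt
    exact ContMDiffAt.comp (g := fun z : E 4 => (A (f z) : E 4)) x₀ h6 h4
  have hall : ∀ x, ContMDiffAt (𝓡∂ 4) (𝓡 4) ∞ (fun x => (A (h x) : E 4)) x := by
    intro x
    by_cases hx : x = x₀
    · rw [hx]
      exact hx₀s
    · exact (hoff x hx).1
  refine ⟨fun x => (A (h x) : E 4), ⟨(hHc.isClosedEmbedding hHi).isEmbedding, hHr⟩, fun x => ⟨Eventually.of_forall hall, ?_⟩⟩
  by_cases hx : x = x₀
  · rw [hx]
    have h1 : mfderiv (𝓡 4) (𝓡 4) (fun z : E 4 => (A (f z) : E 4)) 0 =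
        (mfderiv (𝓡∂ 4) (𝓡 4) (fun x => (A (h x) : E 4)) (a 0)).comp (mfderiv (𝓡 4) (𝓡∂ 4) a 0) := by
      have h2 : (fun z : E 4 => (A (f z) : E 4)) = (fun x => (A (h x) : E 4)) ∘ a := by
        funext z
        show A (f z) = A (h (a z))
        rw [hfz]
      rw [h2]
      exact mfderiv_comp (0 : E 4) ((hall (a 0)).mdifferentiableAt (by simp)) (hl.mdifferentiableAt (by simp))
    have h3 : mfderiv (𝓡 4) (𝓡 4) (fun z : E 4 => (A (f z) : E 4)) 0 = fderiv ℝ (fun z => A (f z)) 0 :=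
      mfderiv_eq_fderiv
    rw [h3, a0] at h1
    have h6 : Bijective (mfderiv (𝓡 4) (𝓡∂ 4) a 0) := by
      rw [← hl.mfderivToContinuousLinearEquiv_coe (by simp)]
      exact (hl.mfderivToContinuousLinearEquiv (by simp)).bijective
    have h7 : Bijective ((mfderiv (𝓡∂ 4) (𝓡 4) (fun x => (A (h x) : E 4)) x₀) ∘ (mfderiv (𝓡 4) (𝓡∂ 4) a 0)) := by
      have h8 := hΨb
      rw [h1] at h8
      exact h8
    exact (Bijective.of_comp_iff _ h6).1 h7
  · exact (hoff x hx).2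

end Pool.Agent.N550.OC.P2
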