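import Pool.Agent.N550.OC.Stm
import Pool.Agent.N550.TS.Flm

/-!
# Project OC: an adapted parametrization at an interior point (helper118)
-/

set_option autoImplicit false

open Set Filter Topology Metric Function MeasureTheory
open scoped Manifold ContDiff

noncomputable section

namespace Pool.Agent.N550.OC.P2A

open Pool.Agent.Y522 Pool.Agent.Y833.SH Pool.Agent.N550.KH Pool.Agent.N550.BC
open Pool.Agent.N550.OC Pool.Agent.N550.TS.Flm

theorem cell {M : Type} [TopologicalSpace M] [ChartedSpace (EuclideanHalfSpace 4) M]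
    [IsManifold (𝓡∂ 4) ∞ M] (x₀ : M) (hx₀ : x₀ ∈ (𝓡∂ 4).interior M) :
    ∃ a : E 4 → M, Injective a ∧ a 0 = x₀ ∧
      ∀ z, IsLocalDiffeomorphAt (𝓡 4) (𝓡∂ 4) ∞ a z ∧ a z ∈ (𝓡∂ 4).interior M := by
  let := csI (M := M) (𝓡∂ 4)
  have hmf : IsManifold (𝓡 4) ∞ ((𝓡∂ 4).interior M) := mfI (M := M) (𝓡∂ 4)
  obtain ⟨c, hc1, hc2, hc3⟩ := exists_cell0 (n := 4) (⟨x₀, hx₀⟩ : (𝓡∂ 4).interior M)
  refine ⟨fun z => (c z : M), Subtype.val_injective.comp hc1, ?_, fun z => ⟨?_, (c z).2⟩⟩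
  · change (c 0 : M) = x₀
    rw [hc3]
  · exact IsLocalDiffeomorphAt.comp (𝓡∂ 4) M (hc2 z) (ldiff_val (𝓡∂ 4) (c z))

theorem adapt (v : E 4 → ℝ) (hv : ∀ᶠ z in 𝓝 (0 : E 4), ContDiffAt ℝ ∞ v z) (hv0 : v 0 = 0)
    (hv1 : fderiv ℝ v 0 ≠ 0) :
    ∃ p Φ : E 4 → E 4, p 0 = 0 ∧
      ∀ᶠ z in 𝓝 (0 : E 4), LD 4 p z ∧ v (p z) = z 0 ∧ Φ (p z) = z := by
  have hn : (∞ : WithTop ℕ∞) ≠ 0 := by simp
  obtain ⟨ℓ, hℓ⟩ : ∃ ℓ : E 4 →L[ℝ] ℝ, ℓ = fderiv ℝ v 0 := ⟨_, rfl⟩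
  rw [← hℓ] at hv1
  obtain ⟨i, hi⟩ : ∃ i : Fin 4, ℓ (EuclideanSpace.single i 1) ≠ 0 := by
    by_contra hcon
    push Not at hcon
    apply hv1
    ext w
    have h := (EuclideanSpace.basisFun (Fin 4) ℝ).sum_repr w
    simp only [EuclideanSpace.basisFun_repr, EuclideanSpace.basisFun_apply] at h
    rw [← h, map_sum]
    simp [hcon]
  obtain ⟨Φ, hΦ⟩ : ∃ Φ : E 4 → E 4, Φ = fun z =>
      cn (m := 3) (v z) (WithLp.toLp 2 fun j : Fin 3 => z (i.succAbove j)) := ⟨_, rfl⟩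
  have hΦc : ∀ᶠ z in 𝓝 (0 : E 4), ContDiffAt ℝ ∞ Φ z := by
    filter_upwards [hv] with z hz
    rw [hΦ, contDiffAt_euclidean]
    intro k
    refine Fin.cases ?_ (fun j => ?_) k
    · exact hz
    · exact (EuclideanSpace.proj (𝕜 := ℝ) (i.succAbove j)).contDiff.contDiffAt
  let L : E 4 →L[ℝ] E 4 := LinearMap.toContinuousLinearMap
    { toFun := fun w => cn (m := 3) (ℓ w) (WithLp.toLp 2 fun j : Fin 3 => w (i.succAbove j))
      map_add' := fun x y => by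
        ext k
        refine Fin.cases ?_ (fun j => ?_) k <;> simp
      map_smul' := fun c x => by
        ext k
        refine Fin.cases ?_ (fun j => ?_) k <;> simp }
  have hL0 : ∀ w, (L w) 0 = ℓ w := fun w => rfl
  have hLs : ∀ w (j : Fin 3), (L w) j.succ = w (i.succAbove j) := fun w j => rfl
  have hL : HasFDerivAt Φ L 0 := by
    rw [hΦ, ← hasFDerivWithinAt_univ, hasFDerivWithinAt_euclidean]
    intro k
    rw [hasFDerivWithinAt_univ]
    refine Fin.cases ?_ (fun j => ?_) k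
    · refine HasFDerivAt.congr_fderiv (f' := ℓ) ?_ ?_
      · rw [hℓ]
        exact (hv.self_of_nhds.differentiableAt hn).hasFDerivAt
      · ext w
        rfl
    · refine HasFDerivAt.congr_fderiv (f' := EuclideanSpace.proj (𝕜 := ℝ) (i.succAbove j)) ?_ ?_
      · exact (EuclideanSpace.proj (𝕜 := ℝ) (i.succAbove j)).hasFDerivAt
      · ext w
        rfl
  have hinj : Injective L.toLinearMap := by
    rw [injective_iff_map_eq_zero]
    intro w hw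
    have hw' : L w = 0 := hw
    have h1 : ℓ w = 0 := by rw [← hL0, hw']; rfl
    have h2 : ∀ j : Fin 3, w (i.succAbove j) = 0 := fun j => by rw [← hLs, hw']; rfl
    have h3 : w = w i • EuclideanSpace.single i (1 : ℝ) := by
      ext k
      by_cases hk : k = i
      · subst hk
        simp
      · obtain ⟨j, rfl⟩ := Fin.exists_succAbove_eq hk
        simp [h2 j]
    rw [h3, map_smul, smul_eq_mul] at h1
    rcases mul_eq_zero.1 h1 with h4 | h4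
    · rw [h3, h4, zero_smul]
    · exact absurd h4 hi
  let A : E 4 ≃L[ℝ] E 4 := (LinearEquiv.ofInjectiveEndo L.toLinearMap hinj).toContinuousLinearEquiv
  have hA : (A : E 4 →L[ℝ] E 4) = L := by
    ext w
    rfl
  have hLD : LD 4 Φ 0 := LD_of_contDiffAt hΦc A (by rw [hA]; exact hL)
  have hΦ0 : Φ 0 = 0 := by
    rw [hΦ]
    ext k
    refine Fin.cases ?_ (fun j => ?_) k
    · exact hv0
    · rfl
  obtain ⟨p, hp1, hp2, -, hp4⟩ := hLD.exists_inverse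
  rw [hΦ0] at hp1 hp2 hp4
  refine ⟨p, Φ, hp2, ?_⟩
  filter_upwards [hp1.eventually, hp4] with z h1 h2
  refine ⟨h1, ?_, h2⟩
  have h3 : (Φ (p z)) 0 = v (p z) := by rw [hΦ]; rfl
  rw [← h3, h2]

theorem main : S_P2A := by
  intro M _ _ _ u x₀ hx₀ hu hdu
  obtain ⟨c, ci, c0, hc⟩ := cell x₀ hx₀
  subst c0
  have hcc : ContinuousAt c 0 := (hc 0).1.contMDiffAt.continuousAt
  obtain ⟨v, hv⟩ : ∃ v : E 4 → ℝ, v = fun z => u (c z) - u (c 0) := ⟨_, rfl⟩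
  have hvs : ∀ᶠ z in 𝓝 (0 : E 4), ContDiffAt ℝ ∞ v z := by
    filter_upwards [hcc.eventually hu] with z hz
    have h2 : ContMDiffAt (𝓡 4) 𝓘(ℝ, ℝ) ∞ (fun z => u (c z)) z :=
      ContMDiffAt.comp (g := u) z hz (hc z).1.contMDiffAt
    rw [hv]
    exact (contMDiffAt_iff_contDiffAt.1 h2).sub contDiffAt_const
  have hv0 : v 0 = 0 := by
    rw [hv]
    exact sub_self _
  have hv1 : fderiv ℝ v 0 ≠ 0 := by
    intro h0
    apply hdu
    have h1 : fderiv ℝ (fun z => u (c z)) 0 = 0 := by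
      rw [hv, fderiv_sub_const] at h0
      exact h0
    have hum : MDifferentiableAt (𝓡∂ 4) 𝓘(ℝ, ℝ) u (c 0) :=
      (hu.self_of_nhds).mdifferentiableAt (by simp)
    have hcm : MDifferentiableAt (𝓡 4) (𝓡∂ 4) c 0 := (hc 0).1.mdifferentiableAt (by simp)
    have h2 : mfderiv (𝓡 4) 𝓘(ℝ, ℝ) (fun z => u (c z)) 0 =
        (mfderiv (𝓡∂ 4) 𝓘(ℝ, ℝ) u (c 0)).comp (mfderiv (𝓡 4) (𝓡∂ 4) c 0) :=
      mfderiv_comp 0 hum hcm
    rw [mfderiv_eq_fderiv, h1] at h2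
    have hs : Surjective (mfderiv (𝓡 4) (𝓡∂ 4) c 0) :=
      ((hc 0).1.mfderivToContinuousLinearEquiv (by simp)).surjective
    refine ContinuousLinearMap.ext fun y => ?_
    obtain ⟨w, rfl⟩ := hs y
    exact (DFunLike.congr_fun h2 w).symm
  obtain ⟨p, Φ, p0, hp⟩ := adapt v hvs hv0 hv1
  obtain ⟨δ, hδ, hp'⟩ := Metric.eventually_nhds_iff_ball.1 hp
  refine ⟨fun z => c (p z), δ, hδ, ?_, ?_, ?_⟩
  · show c (p 0) = c 0
    rw [p0]
  · intro z hz w hw h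
    have h1 : p z = p w := ci h
    have h2 := (hp' z hz).2.2
    have h3 := (hp' w hw).2.2
    rw [← h2, ← h3, h1]
  · intro z hz
    refine ⟨IsLocalDiffeomorphAt.comp (𝓡∂ 4) M (hp' z hz).1 (hc (p z)).1, (hc _).2, ?_⟩
    have h5 := (hp' z hz).2.1
    rw [hv] at h5
    have h6 : up 1 3 z 0 = z 0 := rfl
    show u (c (p z)) = u (c 0) + up 1 3 z 0
    rw [h6]
    have h7 : u (c (p z)) - u (c 0) = z 0 := h5
    linarith

end Pool.Agent.N550.OC.P2A
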