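import Pool.Agent.N550.OC.Stm

/-!
# Project OC, leaf ROT: rotations
-/

set_option autoImplicit false

namespace Pool.Agent.N550.OC.ROT

open Submodule

theorem main : S_ROT := by
  intro ℓ hℓ
  obtain ⟨v, hv⟩ : ∃ v, ∀ z, ℓ z = inner ℝ v z :=
    ⟨(InnerProductSpace.toDual ℝ _).symm ℓ, fun z => by rw [InnerProductSpace.toDual_symm_apply]⟩
  have hv0 : v ≠ 0 := by
    intro h
    apply hℓ
    ext z
    rw [hv, h, inner_zero_left]
    rfl
  have hn : ‖v‖ = ‖(‖v‖ • (EuclideanSpace.single (0 : Fin 4) (1 : ℝ)))‖ := by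
    rw [norm_smul, EuclideanSpace.norm_single, norm_norm, norm_one, mul_one]
  refine ⟨(ℝ ∙ (v - ‖v‖ • (EuclideanSpace.single (0 : Fin 4) (1 : ℝ))))ᗮ.reflection, ‖v‖⁻¹,
    inv_ne_zero (norm_ne_zero_iff.2 hv0), fun z => ?_⟩
  have h1 := Submodule.reflection_sub hn
  set O := (ℝ ∙ (v - ‖v‖ • (EuclideanSpace.single (0 : Fin 4) (1 : ℝ))))ᗮ.reflection with hO
  have h2 : inner ℝ (O v) (O z) = inner ℝ v z := LinearIsometryEquiv.inner_map_map O v z
  rw [h1, real_inner_smul_left, EuclideanSpace.inner_single_left] at h2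
  rw [hv, ← h2]
  have h3 : ‖v‖ ≠ 0 := norm_ne_zero_iff.2 hv0
  simp only [map_one, one_mul]
  rw [inv_mul_cancel_left₀ h3]

end Pool.Agent.N550.OC.ROT
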