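import Pool.Agent.N550.OC.Stm

set_option autoImplicit false

open Set Filter Topology Metric Function MeasureTheory
open scoped Manifold ContDiff

noncomputable section

namespace Pool.Agent.N550.OC.SA

open Pool.Agent.Y522 Pool.Agent.N550.KH Pool.Agent.N550.BC

/-- first coordinate -/
def al : E (1 + 3) →L[ℝ] ℝ := (EuclideanSpace.proj (0 : Fin 1) : E 1 →L[ℝ] ℝ).comp (up 1 3)

theorem al_apply (z : E (1 + 3)) : al z = up 1 3 z 0 := rfl

/-- inverse -/
def J : ℝ × E 3 →L[ℝ] E (1 + 3) :=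
  LinearMap.toContinuousLinearMap
    { toFun := fun p => jn 1 3 (WithLp.toLp 2 (fun _ => p.1)) p.2
      map_add' := fun x y => by
        ext i
        refine Fin.addCases (fun i => ?_) (fun i => ?_) i <;> simp [jn]
      map_smul' := fun c x => by
        ext i
        refine Fin.addCases (fun i => ?_) (fun i => ?_) i <;> simp [jn] }

theorem J_apply (t : ℝ) (w : E 3) : J (t, w) = jn 1 3 (WithLp.toLp 2 (fun _ => t)) w := rfl

@[simp] theorem al_J (t : ℝ) (w : E 3) : al (J (t, w)) = t := by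
  rw [al_apply, J_apply, up_jn]

@[simp] theorem vp_J (t : ℝ) (w : E 3) : vp 1 3 (J (t, w)) = w := by
  rw [J_apply, vp_jn]

theorem up_eq (z : E (1 + 3)) : (WithLp.toLp 2 (fun _ => al z) : E 1) = up 1 3 z := by
  ext i
  have : i = 0 := Subsingleton.elim _ _
  rw [this]; rfl

@[simp] theorem J_al (z : E (1 + 3)) : J (al z, vp 1 3 z) = z := by
  rw [J_apply, up_eq, jn_up_vp]

theorem norm_sq (z : E (1 + 3)) : ‖z‖ ^ 2 = al z ^ 2 + ‖vp 1 3 z‖ ^ 2 := by
  rw [EuclideanSpace.real_norm_sq_eq, EuclideanSpace.real_norm_sq_eq, Fin.sum_univ_add,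
    Fin.sum_univ_one]
  rfl

theorem ext' {z w : E (1 + 3)} (h1 : al z = al w) (h2 : vp 1 3 z = vp 1 3 w) : z = w := by
  rw [← J_al z, ← J_al w, h1, h2]


/-! ### the functions `s` and `κ` -/

def ss (z : E 3) : ℝ := √(1 - ‖z‖ ^ 2)

theorem ss_cont : Continuous ss := by unfold ss; fun_prop

theorem ss_smooth {z : E 3} (hz : ‖z‖ < 1) : ContDiffAt ℝ ∞ ss z := by
  have h : (1 - ‖z‖ ^ 2) ≠ 0 := by nlinarith [norm_nonneg z]
  exact ContDiffAt.sqrt (contDiffAt_const.sub (contDiff_norm_sq ℝ).contDiffAt) h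

def kap (m t : ℝ) : ℝ := Real.smoothTransition ((t - m / 4) / (m / 2))

theorem kap_zero {m t : ℝ} (hm : 0 < m) (h : t ≤ m / 4) : kap m t = 0 := by
  unfold kap
  apply Real.smoothTransition.zero_of_nonpos
  apply div_nonpos_of_nonpos_of_nonneg <;> linarith

theorem kap_one {m t : ℝ} (hm : 0 < m) (h : 3 * m / 4 ≤ t) : kap m t = 1 := by
  unfold kap
  apply Real.smoothTransition.one_of_one_le
  rw [one_le_div (by linarith)]
  linarith

theorem kap_nonneg (m t : ℝ) : 0 ≤ kap m t := Real.smoothTransition.nonneg _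

theorem kap_le (m t : ℝ) : kap m t ≤ 1 := Real.smoothTransition.le_one _

theorem kap_smooth (m : ℝ) : ContDiff ℝ ∞ (kap m) := by
  unfold kap
  exact Real.smoothTransition.contDiff.comp ((contDiff_id.sub contDiff_const).div_const _)

theorem kap_bound {m : ℝ} (hm : 0 < m) : ∃ C : ℝ, 0 < C ∧ ∀ t, |deriv (kap m) t| ≤ C := by
  have hc : Continuous (deriv (kap m)) := (kap_smooth m).continuous_deriv (by simp)
  obtain ⟨C, hC⟩ := (isCompact_Icc (a := (0 : ℝ)) (b := m)).exists_bound_of_continuousOn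
    hc.continuousOn
  refine ⟨max C 1, by positivity, fun t => ?_⟩
  by_cases ht : t ∈ Icc (0 : ℝ) m
  · exact (hC t ht).trans (le_max_left _ _)
  · have h0 : deriv (kap m) t = 0 := by
      rw [mem_Icc, not_and_or, not_le, not_le] at ht
      rcases ht with ht | ht
      · have : kap m =ᶠ[𝓝 t] fun _ => (0 : ℝ) := by
          filter_upwards [Iio_mem_nhds ht] with x hx
          exact kap_zero hm (by have : x < 0 := hx; linarith)
        rw [this.deriv_eq]; simp
      · have : kap m =ᶠ[𝓝 t] fun _ => (1 : ℝ) := by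
          filter_upwards [Ioi_mem_nhds ht] with x hx
          exact kap_one hm (by have : m < x := hx; linarith)
        rw [this.deriv_eq]; simp
    rw [h0]; simp

attribute [local irreducible] kap

/-! ### the data -/

structure Dat (c m C ρ τ : ℝ) (z0 : E 3) (φ : ℝ → E 3 → E 3) : Prop where
  m_eq : m = ss z0 - |c|
  m0 : 0 < m
  C0 : 0 < C
  hC : ∀ t, |deriv (kap m) t| ≤ C
  ρm : ρ ≤ m / 8
  near : ∀ z, ‖z - z0‖ < 2 * ρ → ‖z‖ < 1 ∧ |ss z - ss z0| < m / 16 ∧
    C * |ss z - ss z0| < 1 / 4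
  τ0 : 0 < τ
  τρ : τ < ρ
  cyl : Cyl 3 φ ρ τ z0

def del (φ : ℝ → E 3 → E 3) (τ : ℝ) (z : E 3) : ℝ := ss (φ τ z) - ss z

def AA (c m τ : ℝ) (φ : ℝ → E 3 → E 3) (v : E (1 + 3)) : E (1 + 3) :=
  J (al v + kap m (al v - c) * del φ τ (vp 1 3 v), φ (al v - c) (vp 1 3 v))

section

variable {c m C ρ τ : ℝ} {z0 : E 3} {φ : ℝ → E 3 → E 3}

theorem stay (D : Dat c m C ρ τ z0 φ) (t : ℝ) {z : E 3} (hz : ‖z - z0‖ < ρ) :
    ‖φ t z - z0‖ < ρ := by
  by_contra h
  push Not at h
  have h1 := D.cyl.2.2.2.1 t (φ t z) (Or.inr h)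
  have h2 := (D.cyl.1 t).1 h1
  rw [h2] at h
  linarith

theorem far (D : Dat c m C ρ τ z0 φ) (t : ℝ) {z : E 3} (hz : ρ ≤ ‖z - z0‖) :
    φ t z = z := D.cyl.2.2.2.1 t z (Or.inr hz)

theorem stay2 (D : Dat c m C ρ τ z0 φ) (t : ℝ) {z : E 3} (hz : ‖z - z0‖ < 2 * ρ) :
    ‖φ t z - z0‖ < 2 * ρ := by
  have hρ : 0 < ρ := D.τ0.trans D.τρ
  rcases lt_or_ge ‖z - z0‖ ρ with h | h
  · have := stay D t h; linarith
  · rw [far D t h]; exact hz

theorem del_far (D : Dat c m C ρ τ z0 φ) {z : E 3} (hz : ρ ≤ ‖z - z0‖) : del φ τ z = 0 := by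
  unfold del; rw [far D τ hz, sub_self]

theorem del_bd (D : Dat c m C ρ τ z0 φ) (z : E 3) : |del φ τ z| < m / 8 ∧
    C * |del φ τ z| ≤ 1 / 2 := by
  have hm := D.m0
  have hC := D.C0
  have hρ : 0 < ρ := D.τ0.trans D.τρ
  rcases lt_or_ge ‖z - z0‖ ρ with h | h
  · have h1 := D.near z (by linarith)
    have h2 := D.near (φ τ z) (stay2 D τ (by linarith))
    have h3 : |del φ τ z| ≤ |ss (φ τ z) - ss z0| + |ss z - ss z0| := by
      unfold del
      have := abs_sub (ss (φ τ z) - ss z0) (ss z - ss z0)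
      calc |ss (φ τ z) - ss z| = |(ss (φ τ z) - ss z0) - (ss z - ss z0)| := by congr 1; ring
        _ ≤ _ := abs_sub _ _
    constructor
    · linarith [h1.2.1, h2.2.1]
    · have := mul_le_mul_of_nonneg_left h3 hC.le
      linarith [h1.2.2, h2.2.2]
  · rw [del_far D h, abs_zero]
    constructor
    · linarith
    · rw [mul_zero]; norm_num

theorem kdel (D : Dat c m C ρ τ z0 φ) {t : ℝ} {z y : E 3} (h : φ t z = φ τ y) :
    kap m t * del φ τ z = kap m t * del φ τ y := by
  rcases le_or_gt t (m / 4) with ht | ht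
  · rw [kap_zero D.m0 ht, zero_mul, zero_mul]
  · have h1 : τ ≤ t := by have := D.τρ; have := D.ρm; have := D.m0; linarith
    rw [D.cyl.2.2.2.2 t z h1] at h
    rw [(D.cyl.1 τ).1 h]

theorem g_mono (D : Dat c m C ρ τ z0 φ) (y : E 3) :
    StrictMono fun t : ℝ => t + kap m t * del φ τ y := by
  apply strictMono_of_deriv_pos
  intro t
  have hd : HasDerivAt (kap m) (deriv (kap m) t) t :=
    ((kap_smooth m).differentiable (by simp)).differentiableAt.hasDerivAt
  have h1 : HasDerivAt (fun t : ℝ => t + kap m t * del φ τ y)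
      (1 + deriv (kap m) t * del φ τ y) t := (hasDerivAt_id t).add (hd.mul_const _)
  rw [h1.deriv]
  have h2 : |deriv (kap m) t * del φ τ y| ≤ 1 / 2 := by
    rw [abs_mul]
    exact (mul_le_mul_of_nonneg_right (D.hC t) (abs_nonneg _)).trans (del_bd D y).2
  have := (abs_le.1 h2).1
  linarith

theorem g_surj (D : Dat c m C ρ τ z0 φ) (y : E 3) :
    Surjective fun t : ℝ => t + kap m t * del φ τ y := by
  have hb : ∀ t : ℝ, |kap m t * del φ τ y| ≤ |del φ τ y| := by
    intro t
    rw [abs_mul, abs_of_nonneg (kap_nonneg m t)]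
    exact mul_le_of_le_one_left (abs_nonneg _) (kap_le m t)
  have hcont : Continuous fun t : ℝ => t + kap m t * del φ τ y :=
    continuous_id.add ((kap_smooth m).continuous.mul_const _)
  apply hcont.surjective
  · apply tendsto_atTop_mono (f := fun t : ℝ => t + (-|del φ τ y|))
    · intro t
      have := (abs_le.1 (hb t)).1
      linarith
    · exact tendsto_atTop_add_const_right _ _ tendsto_id
  · refine tendsto_atBot_mono (fun t => ?_)
      (tendsto_atBot_add_const_right _ (|del φ τ y|) tendsto_id)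
    have := (abs_le.1 (hb t)).2
    show t + kap m t * del φ τ y ≤ t + |del φ τ y|
    linarith

theorem al_AA (v : E (1 + 3)) : al (AA c m τ φ v) =
    al v + kap m (al v - c) * del φ τ (vp 1 3 v) := by
  unfold AA; rw [al_J]

theorem vp_AA (v : E (1 + 3)) : vp 1 3 (AA c m τ φ v) = φ (al v - c) (vp 1 3 v) := by
  unfold AA; rw [vp_J]

theorem AA_inj (D : Dat c m C ρ τ z0 φ) : Injective (AA c m τ φ) := by
  intro v v' h
  have h1 := congrArg al h
  have h2 := congrArg (vp 1 3) h
  rw [al_AA, al_AA] at h1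
  rw [vp_AA, vp_AA] at h2
  obtain ⟨y, hy⟩ := (D.cyl.1 τ).2 (φ (al v - c) (vp 1 3 v))
  rw [kdel D hy.symm, kdel D (h2.symm.trans hy.symm)] at h1
  have h3 : al v - c = al v' - c := by
    apply (g_mono D y).injective
    show al v - c + kap m (al v - c) * del φ τ y = al v' - c + kap m (al v' - c) * del φ τ y
    linarith
  have h4 : al v = al v' := by linarith
  rw [h4] at h2
  exact ext' h4 ((D.cyl.1 _).1 h2)

theorem AA_surj (D : Dat c m C ρ τ z0 φ) : Surjective (AA c m τ φ) := by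
  intro u
  obtain ⟨y, hy⟩ := (D.cyl.1 τ).2 (vp 1 3 u)
  obtain ⟨t, ht⟩ := g_surj D y (al u - c)
  obtain ⟨z, hz⟩ := (D.cyl.1 t).2 (vp 1 3 u)
  have ht' : t + kap m t * del φ τ y = al u - c := ht
  refine ⟨J (c + t, z), ?_⟩
  apply ext'
  · rw [al_AA, al_J, vp_J, add_sub_cancel_left, kdel D (hz.trans hy.symm)]
    linarith
  · rw [vp_AA, al_J, vp_J, add_sub_cancel_left, hz]

theorem mem_iff (v : E (1 + 3)) : v ∈ closedBall (0 : E (1 + 3)) 1 ↔
    al v ^ 2 + ‖vp 1 3 v‖ ^ 2 ≤ 1 := by
  rw [mem_closedBall_zero_iff, ← norm_sq]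
  constructor
  · intro h; nlinarith [norm_nonneg v]
  · intro h; nlinarith [norm_nonneg v]

theorem mem_iff' {a : ℝ} {z : E 3} (hz : ‖z‖ < 1) : a ^ 2 + ‖z‖ ^ 2 ≤ 1 ↔ |a| ≤ ss z := by
  unfold ss
  rw [← Real.sqrt_sq_eq_abs]
  rw [Real.sqrt_le_sqrt_iff (by nlinarith [norm_nonneg z])]
  constructor <;> intro h <;> linarith

theorem AA_id (D : Dat c m C ρ τ z0 φ) {v : E (1 + 3)}
    (h : ρ ≤ ‖vp 1 3 v - z0‖ ∨ al v - c ≤ -τ) : AA c m τ φ v = v := by
  apply ext'
  · rw [al_AA]
    rcases h with h | h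
    · rw [del_far D h, mul_zero, add_zero]
    · rw [kap_zero D.m0 (by have := D.m0; have := D.τ0; linarith), zero_mul, add_zero]
  · rw [vp_AA]
    rcases h with h | h
    · exact far D _ h
    · exact D.cyl.2.2.2.1 _ _ (Or.inl h)

theorem AA_mem (D : Dat c m C ρ τ z0 φ) (v : E (1 + 3)) :
    v ∈ closedBall (0 : E (1 + 3)) 1 ↔ AA c m τ φ v ∈ closedBall (0 : E (1 + 3)) 1 := by
  rcases le_or_gt ρ ‖vp 1 3 v - z0‖ with h | h
  · rw [AA_id D (Or.inl h)]
  rcases le_or_gt (al v - c) (-τ) with ht | ht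
  · rw [AA_id D (Or.inr ht)]
  have hm := D.m0
  have hm' := D.m_eq
  have hρ : 0 < ρ := D.τ0.trans D.τρ
  have hτρ := D.τρ
  have hρm := D.ρm
  have n1 := D.near (vp 1 3 v) (by linarith)
  have n2 := D.near (φ (al v - c) (vp 1 3 v)) (stay2 D _ (by linarith))
  rw [mem_iff, mem_iff, al_AA, vp_AA, mem_iff' n1.1, mem_iff' n2.1]
  have a1 := abs_lt.1 n1.2.1
  have a2 := abs_lt.1 n2.2.1
  have c1 := neg_abs_le c
  have c2 := le_abs_self c
  have hdel := abs_lt.1 (del_bd D (vp 1 3 v)).1
  rcases le_or_gt (3 * m / 4) (al v - c) with hk | hk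
  · have hτ : τ ≤ al v - c := by linarith
    rw [kap_one hm hk, one_mul, D.cyl.2.2.2.2 _ _ hτ]
    rw [D.cyl.2.2.2.2 _ _ hτ] at a2
    unfold del at hdel ⊢
    rw [abs_le, abs_le]
    constructor
    · rintro ⟨h1, h2⟩
      constructor <;> linarith
    · rintro ⟨h1, h2⟩
      constructor <;> linarith
  · have hb : |kap m (al v - c) * del φ τ (vp 1 3 v)| < m / 8 := by
      rw [abs_mul, abs_of_nonneg (kap_nonneg m _)]
      exact lt_of_le_of_lt (mul_le_of_le_one_left (abs_nonneg _) (kap_le m _))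
        (del_bd D (vp 1 3 v)).1
    have hb' := abs_lt.1 hb
    rw [abs_le, abs_le]
    constructor
    · intro _
      constructor <;> linarith
    · intro _
      constructor <;> linarith


theorem phi_cont (D : Dat c m C ρ τ z0 φ) (t : ℝ) : Continuous (φ t) :=
  D.cyl.2.1.comp (continuous_const.prodMk continuous_id)

theorem AA_cont (D : Dat c m C ρ τ z0 φ) : Continuous (AA c m τ φ) := by
  unfold AA
  have h1 : Continuous fun v : E (1 + 3) => al v - c := al.continuous.sub continuous_const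
  have h2 : Continuous (del φ τ) := (ss_cont.comp (phi_cont D τ)).sub ss_cont
  have h3 : Continuous fun v : E (1 + 3) => φ (al v - c) (vp 1 3 v) :=
    D.cyl.2.1.comp (h1.prodMk (vp 1 3).continuous)
  exact J.continuous.comp ((al.continuous.add
    (((kap_smooth m).continuous.comp h1).mul (h2.comp (vp 1 3).continuous))).prodMk h3)

theorem phi_hasFDeriv (D : Dat c m C ρ τ z0 φ) {t : ℝ} {z : E 3} (h : t ≠ 0 ∨ z ≠ z0) :
    HasFDerivAt (φ t) ((fderiv ℝ (fun p : ℝ × E 3 => φ p.1 p.2) (t, z)).comp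
      ((0 : E 3 →L[ℝ] ℝ).prod (ContinuousLinearMap.id ℝ (E 3)))) z := by
  have h1 := ((D.cyl.2.2.1 t z h).1.differentiableAt (by simp)).hasFDerivAt
  have h2 : HasFDerivAt (fun z : E 3 => ((t, z) : ℝ × E 3))
      ((0 : E 3 →L[ℝ] ℝ).prod (ContinuousLinearMap.id ℝ (E 3))) z :=
    (hasFDerivAt_const t z).prodMk (hasFDerivAt_id z)
  exact HasFDerivAt.comp z h1 h2

theorem phi_smooth (D : Dat c m C ρ τ z0 φ) {t : ℝ} {z : E 3} (h : t ≠ 0 ∨ z ≠ z0) :
    ContDiffAt ℝ ∞ (φ t) z := by
  have h1 := (D.cyl.2.2.1 t z h).1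
  have h2 : ContDiffAt ℝ ∞ (fun z : E 3 => ((t, z) : ℝ × E 3)) z :=
    contDiffAt_const.prodMk contDiffAt_id
  exact ContDiffAt.comp (g := fun p : ℝ × E 3 => φ p.1 p.2) z h1 h2

theorem del_smooth (D : Dat c m C ρ τ z0 φ) {z : E 3} (hz : ‖z - z0‖ < 2 * ρ) :
    ContDiffAt ℝ ∞ (del φ τ) z := by
  unfold del
  exact (ContDiffAt.comp z (ss_smooth (D.near _ (stay2 D τ hz)).1)
    (phi_smooth D (Or.inl D.τ0.ne'))).sub (ss_smooth (D.near _ hz).1)

theorem AA_reg (D : Dat c m C ρ τ z0 φ) {v : E (1 + 3)}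
    (hne : al v - c ≠ 0 ∨ vp 1 3 v ≠ z0) :
    ContDiffAt ℝ ∞ (AA c m τ φ) v ∧ Bijective (fderiv ℝ (AA c m τ φ) v) := by
  have hρ : 0 < ρ := D.τ0.trans D.τρ
  rcases lt_or_ge ρ ‖vp 1 3 v - z0‖ with h | h
  · have hev : AA c m τ φ =ᶠ[𝓝 v] id := by
      have ho : IsOpen {x : E (1 + 3) | ρ < ‖vp 1 3 x - z0‖} :=
        isOpen_lt continuous_const (((vp 1 3).continuous.sub continuous_const).norm)
      filter_upwards [ho.mem_nhds h] with x hx
      have hx' : ρ < ‖vp 1 3 x - z0‖ := hx
      exact AA_id D (Or.inl hx'.le)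
    refine ⟨contDiffAt_id.congr_of_eventuallyEq hev, ?_⟩
    rw [hev.fderiv_eq, fderiv_id]
    exact bijective_id
  · have h2 : ‖vp 1 3 v - z0‖ < 2 * ρ := by linarith
    have halc : ContDiffAt ℝ ∞ (fun x : E (1 + 3) => al x - c) v :=
      al.contDiff.contDiffAt.sub contDiffAt_const
    have hvp : ContDiffAt ℝ ∞ (fun x : E (1 + 3) => vp 1 3 x) v :=
      (vp 1 3).contDiff.contDiffAt
    have hpair : ContDiffAt ℝ ∞ (fun x : E (1 + 3) => ((al x - c, vp 1 3 x) : ℝ × E 3)) v :=
      halc.prodMk hvp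
    have hf2 : ContDiffAt ℝ ∞ (fun x : E (1 + 3) => φ (al x - c) (vp 1 3 x)) v :=
      ContDiffAt.comp (g := fun p : ℝ × E 3 => φ p.1 p.2) v (D.cyl.2.2.1 _ _ hne).1 hpair
    have hk : ContDiffAt ℝ ∞ (fun x : E (1 + 3) => kap m (al x - c)) v :=
      ContDiffAt.comp (g := kap m) v (kap_smooth m).contDiffAt halc
    have hd : ContDiffAt ℝ ∞ (fun x : E (1 + 3) => del φ τ (vp 1 3 x)) v :=
      ContDiffAt.comp (g := del φ τ) v (del_smooth D h2) hvp
    have hA : ContDiffAt ℝ ∞ (AA c m τ φ) v := by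
      unfold AA
      exact ContDiffAt.comp (g := J) v J.contDiff.contDiffAt
        ((al.contDiff.contDiffAt.add (hk.mul hd)).prodMk hf2)
    refine ⟨hA, ?_⟩
    have hL := (hA.differentiableAt (by simp)).hasFDerivAt
    set L := fderiv ℝ (AA c m τ φ) v with hLdef
    have hinj : Injective L := by
      rw [injective_iff_map_eq_zero]
      intro u hu
      have h1 : HasFDerivAt (fun x => al (AA c m τ φ x)) (al.comp L) v :=
        al.hasFDerivAt.comp v hL
      have h3 : HasFDerivAt (fun x => vp 1 3 (AA c m τ φ x)) ((vp 1 3).comp L) v :=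
        (vp 1 3).hasFDerivAt.comp v hL
      have hap : HasFDerivAt (fun x : E (1 + 3) => al x - c) al v :=
        al.hasFDerivAt.sub_const c
      rcases lt_or_ge (al v - c) (m / 4) with ht | ht
      · -- `κ = 0` near `v`
        have hev : (fun x => al x) =ᶠ[𝓝 v] fun x => al (AA c m τ φ x) := by
          have ho : IsOpen {x : E (1 + 3) | al x - c < m / 4} :=
            isOpen_lt (al.continuous.sub continuous_const) continuous_const
          filter_upwards [ho.mem_nhds ht] with x hx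
          have hx' : al x - c < m / 4 := hx
          rw [al_AA, kap_zero D.m0 hx'.le, zero_mul, add_zero]
        have e1 : al.comp L = al := (h1.congr_of_eventuallyEq hev).unique al.hasFDerivAt
        have hau : al u = 0 := by
          have := congrArg (fun f : E (1 + 3) →L[ℝ] ℝ => f u) e1
          simp only [ContinuousLinearMap.comp_apply] at this
          rw [← this, hu, map_zero]
        have hG := ((D.cyl.2.2.1 (al v - c) (vp 1 3 v) hne).1.differentiableAt
          (by simp)).hasFDerivAt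
        have h4 : HasFDerivAt (fun x : E (1 + 3) => φ (al x - c) (vp 1 3 x))
            ((fderiv ℝ (fun p : ℝ × E 3 => φ p.1 p.2) (al v - c, vp 1 3 v)).comp
              (al.prod (vp 1 3))) v :=
          HasFDerivAt.comp (g := fun p : ℝ × E 3 => φ p.1 p.2) v hG
            (hap.prodMk (vp 1 3).hasFDerivAt)
        have h3' : HasFDerivAt (fun x : E (1 + 3) => φ (al x - c) (vp 1 3 x))
            ((vp 1 3).comp L) v := by
          have e : (fun x => vp 1 3 (AA c m τ φ x)) =
              fun x : E (1 + 3) => φ (al x - c) (vp 1 3 x) := by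
            funext x; rw [vp_AA]
          rwa [e] at h3
        have e2 := h3'.unique h4
        have h5 := congrArg (fun f : E (1 + 3) →L[ℝ] E 3 => f u) e2
        simp only [ContinuousLinearMap.comp_apply, ContinuousLinearMap.prod_apply] at h5
        rw [hu, map_zero, hau] at h5
        have h6 := (phi_hasFDeriv D hne).fderiv
        have h7 : fderiv ℝ (φ (al v - c)) (vp 1 3 v) (vp 1 3 u) = 0 := by
          rw [h6]
          simp only [ContinuousLinearMap.comp_apply, ContinuousLinearMap.prod_apply,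
            ContinuousLinearMap.zero_apply, ContinuousLinearMap.id_apply]
          exact h5.symm
        have h8 : vp 1 3 u = 0 := by
          apply (D.cyl.2.2.1 (al v - c) (vp 1 3 v) hne).2.1
          rw [h7, map_zero]
        exact ext' (by rw [hau, map_zero]) (by rw [h8, map_zero])
      · -- `φ t = φ τ` near `v`
        have hτt : τ < al v - c := by
          have := D.τρ; have := D.ρm; have := D.m0; linarith
        have hev : (fun x : E (1 + 3) => φ τ (vp 1 3 x)) =ᶠ[𝓝 v]
            fun x => vp 1 3 (AA c m τ φ x) := by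
          have ho : IsOpen {x : E (1 + 3) | τ < al x - c} :=
            isOpen_lt continuous_const (al.continuous.sub continuous_const)
          filter_upwards [ho.mem_nhds hτt] with x hx
          have hx' : τ < al x - c := hx
          rw [vp_AA, D.cyl.2.2.2.2 _ _ hx'.le]
        have hb := (D.cyl.2.2.1 τ (vp 1 3 v) (Or.inl D.τ0.ne')).2
        have hφτ : HasFDerivAt (φ τ) (fderiv ℝ (φ τ) (vp 1 3 v)) (vp 1 3 v) :=
          ((phi_smooth D (Or.inl D.τ0.ne')).differentiableAt (by simp)).hasFDerivAt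
        have h4 : HasFDerivAt (fun x : E (1 + 3) => φ τ (vp 1 3 x))
            ((fderiv ℝ (φ τ) (vp 1 3 v)).comp (vp 1 3)) v :=
          HasFDerivAt.comp (g := φ τ) v hφτ (vp 1 3).hasFDerivAt
        have e2 := (h3.congr_of_eventuallyEq hev).unique h4
        have h5 := congrArg (fun f : E (1 + 3) →L[ℝ] E 3 => f u) e2
        simp only [ContinuousLinearMap.comp_apply] at h5
        rw [hu, map_zero] at h5
        have h8 : vp 1 3 u = 0 := by
          apply hb.1
          rw [← h5, map_zero]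
        have hkd : HasDerivAt (kap m) (deriv (kap m) (al v - c)) (al v - c) :=
          ((kap_smooth m).differentiable (by simp)).differentiableAt.hasDerivAt
        have hk' : HasFDerivAt (fun x : E (1 + 3) => kap m (al x - c))
            (deriv (kap m) (al v - c) • al) v := HasDerivAt.comp_hasFDerivAt v hkd hap
        have hdd : HasFDerivAt (del φ τ) (fderiv ℝ (del φ τ) (vp 1 3 v)) (vp 1 3 v) :=
          ((del_smooth D h2).differentiableAt (by simp)).hasFDerivAt
        have hd' : HasFDerivAt (fun x : E (1 + 3) => del φ τ (vp 1 3 x))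
            ((fderiv ℝ (del φ τ) (vp 1 3 v)).comp (vp 1 3)) v :=
          HasFDerivAt.comp (g := del φ τ) v hdd (vp 1 3).hasFDerivAt
        have h9 := al.hasFDerivAt (x := v) |>.add (hk'.mul hd')
        have e3 : (fun x => al (AA c m τ φ x)) =
            (al : E (1 + 3) → ℝ) + ((fun x : E (1 + 3) => kap m (al x - c)) *
              fun x : E (1 + 3) => del φ τ (vp 1 3 x)) := by
          funext x; rw [al_AA]; rfl
        rw [e3] at h1
        have e4 := h1.unique h9
        have h10 := congrArg (fun f : E (1 + 3) →L[ℝ] ℝ => f u) e4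
        simp only [ContinuousLinearMap.comp_apply, ContinuousLinearMap.add_apply,
          ContinuousLinearMap.smul_apply, smul_eq_mul] at h10
        rw [hu, map_zero, h8, map_zero, mul_zero, zero_add] at h10
        have h11 : |deriv (kap m) (al v - c) * del φ τ (vp 1 3 v)| ≤ 1 / 2 := by
          rw [abs_mul]
          exact (mul_le_mul_of_nonneg_right (D.hC _) (abs_nonneg _)).trans (del_bd D _).2
        have h12 := (abs_le.1 h11).1
        have h13 : al u * (1 + deriv (kap m) (al v - c) * del φ τ (vp 1 3 v)) = 0 := by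
          linarith
        have hau : al u = 0 := by
          rcases mul_eq_zero.1 h13 with h | h
          · exact h
          · exfalso; linarith
        exact ext' (by rw [hau, map_zero]) (by rw [h8, map_zero])
    refine ⟨hinj, ?_⟩
    have : Surjective (L : E (1 + 3) →ₗ[ℝ] E (1 + 3)) :=
      LinearMap.injective_iff_surjective.1 hinj
    exact this

end

theorem main : S_A := by
  intro p hp
  obtain ⟨c, hc⟩ : ∃ c, c = al p := ⟨_, rfl⟩
  obtain ⟨z0, hz⟩ : ∃ z0, z0 = vp 1 3 p := ⟨_, rfl⟩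
  have hcz : c ^ 2 + ‖z0‖ ^ 2 < 1 := by
    rw [hc, hz, ← norm_sq]; nlinarith [norm_nonneg p]
  have hz0 : ‖z0‖ < 1 := by nlinarith [norm_nonneg z0, sq_nonneg c]
  have hm : |c| < ss z0 := by
    unfold ss
    apply Real.lt_sqrt_of_sq_lt
    rw [sq_abs]; linarith
  obtain ⟨m, hmdef⟩ : ∃ m, m = ss z0 - |c| := ⟨_, rfl⟩
  have m0 : 0 < m := by linarith
  obtain ⟨C, C0, hC⟩ := kap_bound m0
  obtain ⟨d, d0, hd⟩ : ∃ d > 0, ∀ z, ‖z - z0‖ < d → ‖z‖ < 1 ∧
      |ss z - ss z0| < min (m / 16) (1 / (4 * C)) := by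
    have h1 : ∀ᶠ z in 𝓝 z0, ‖z‖ < 1 :=
      (isOpen_lt continuous_norm continuous_const).mem_nhds hz0
    have h2 : ∀ᶠ z in 𝓝 z0, |ss z - ss z0| < min (m / 16) (1 / (4 * C)) := by
      have ho : IsOpen {z : E 3 | |ss z - ss z0| < min (m / 16) (1 / (4 * C))} :=
        isOpen_lt (ss_cont.sub continuous_const).abs continuous_const
      apply ho.mem_nhds
      show |ss z0 - ss z0| < min (m / 16) (1 / (4 * C))
      rw [sub_self, abs_zero]
      positivity
    obtain ⟨d, d0, h⟩ := Metric.eventually_nhds_iff.1 (h1.and h2)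
    exact ⟨d, d0, fun z hz => h (by rwa [dist_eq_norm])⟩
  refine ⟨min (m / 8) (d / 2), by positivity, ?_⟩
  intro φ τ τ0 τρ hcyl
  have D : Dat c m C (min (m / 8) (d / 2)) τ z0 φ := by
    refine ⟨hmdef, m0, C0, hC, min_le_left _ _, fun z hz' => ?_, τ0, τρ, by rw [hz]; exact hcyl⟩
    have h3 : ‖z - z0‖ < d := by
      have := min_le_right (m / 8) (d / 2)
      linarith
    have h4 := hd z h3
    refine ⟨h4.1, h4.2.trans_le (min_le_left _ _), ?_⟩
    have h5 := h4.2.trans_le (min_le_right _ _)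
    rw [lt_div_iff₀ (by positivity)] at h5
    linarith
  refine ⟨AA c m τ φ, (AA_cont D).continuousOn, ⟨?_, ?_, ?_⟩, ?_, ?_⟩
  · intro v hv
    exact (AA_mem D v).1 hv
  · exact (AA_inj D).injOn
  · intro w hw
    obtain ⟨v, rfl⟩ := AA_surj D w
    exact ⟨v, (AA_mem D v).2 hw, rfl⟩
  · intro v _ hv
    apply AA_reg D
    by_contra hcon
    push Not at hcon
    apply hv
    apply ext'
    · linarith [hcon.1]
    · rw [hcon.2, hz]
  · have ho : IsOpen {x : E (1 + 3) | al x - c < m / 4} :=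
      isOpen_lt (al.continuous.sub continuous_const) continuous_const
    have hp' : p ∈ {x : E (1 + 3) | al x - c < m / 4} := by
      show al p - c < m / 4
      rw [hc, sub_self]; linarith
    filter_upwards [ho.mem_nhds hp'] with x hx
    have hx' : al x - c < m / 4 := hx
    unfold AA
    rw [kap_zero m0 hx'.le, zero_mul, add_zero, J_apply, up_eq, hc]
    rfl

end Pool.Agent.N550.OC.SA
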