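import Pool.Agent.N550.BC.Stm
import Pool.Agent.N550.KH.Stm

/-!
# Project OC: statements

Homeomorphisms of smooth 4-balls onto the standard ball which are regular off one interior point, at
which one coordinate is smooth with nonzero derivative.
-/

set_option autoImplicit false

open Set Filter Topology Metric Function MeasureTheory
open scoped Manifold ContDiff

noncomputable section

namespace Pool.Agent.N550.OC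

open Pool.Agent.Y522 Pool.Agent.N550.KH Pool.Agent.N550.BC

/-- A family of embeddings, parametrized by `(-ε, ε)`, with one isolated singular point. -/
def Fam (k : ℕ) (g : ℝ → E k → E k) (ε : ℝ) : Prop :=
  0 < ε ∧ (∀ t y, |t| < ε → ‖y‖ < ε → ContinuousAt (fun p : ℝ × E k => g p.1 p.2) (t, y)) ∧
    (∀ t y, |t| < ε → ‖y‖ < ε → (t ≠ 0 ∨ y ≠ 0) →
      ContDiffAt ℝ ∞ (fun p : ℝ × E k => g p.1 p.2) (t, y) ∧ Bijective (fderiv ℝ (g t) y)) ∧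
    (∀ t, |t| < ε → InjOn (g t) (ball 0 ε))

/-- A resolution `F` of the family `g` over the closed ball of radius `r`. -/
def Res (k : ℕ) (g F : ℝ → E k → E k) (ε ρ τ r r' : ℝ) : Prop :=
  0 < τ ∧ τ < ρ ∧ 2 * τ < ε ∧ 0 < r' ∧ r' < r ∧ r < ε ∧
    (∀ t y, |t| < 2 * τ → ‖y‖ < ε →
      ContDiffAt ℝ ∞ (fun p : ℝ × E k => F p.1 p.2) (t, y)) ∧
    (∀ t y, |t| < 2 * τ → ‖y‖ ≤ r → Bijective (fderiv ℝ (F t) y)) ∧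
    (∀ t, |t| < 2 * τ → InjOn (F t) (closedBall 0 r)) ∧
    (∀ t y, |t| < 2 * τ → r' ≤ ‖y‖ → ‖y‖ < ε → F t y = g t y) ∧
    (∀ t y, |t| < 2 * τ → t ≤ -τ / 2 → ‖y‖ < ε → F t y = g t y) ∧
    (∀ t y, |t| < 2 * τ → ‖y‖ ≤ r → ‖g t y - g 0 0‖ < ρ)

/-- A continuous family of bijections of `E k`, regular off `(0, c)`, supported in the `ρ`-ball
around `c`, equal to the identity for `t ≤ -τ` and constant for `t ≥ τ`. -/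
def Cyl (k : ℕ) (φ : ℝ → E k → E k) (ρ τ : ℝ) (c : E k) : Prop :=
  (∀ t, Bijective (φ t)) ∧ Continuous (fun p : ℝ × E k => φ p.1 p.2) ∧
    (∀ t z, (t ≠ 0 ∨ z ≠ c) →
      ContDiffAt ℝ ∞ (fun p : ℝ × E k => φ p.1 p.2) (t, z) ∧ Bijective (fderiv ℝ (φ t) z)) ∧
    (∀ t z, t ≤ -τ ∨ ρ ≤ ‖z - c‖ → φ t z = z) ∧ (∀ t z, τ ≤ t → φ t z = φ τ z)

/-- Existence of a resolution. -/
def S_P1A : Prop :=
  ∀ (k : ℕ) (g : ℝ → E k → E k) (ε ρ : ℝ), 2 ≤ k → 0 < ρ → Fam k g ε →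
    ∃ (F : ℝ → E k → E k) (τ r r' : ℝ), Res k g F ε ρ τ r r'

/-- The family of bijections of a resolution. -/
def S_P1B : Prop :=
  ∀ (k : ℕ) (g F : ℝ → E k → E k) (ε ρ τ r r' : ℝ), 2 ≤ k → Fam k g ε → Res k g F ε ρ τ r r' →
    ∃ φ : ℝ → E k → E k, Cyl k φ ρ τ (g 0 0) ∧
      ContDiffAt ℝ ∞ (fun p : ℝ × E k => φ p.1 (g p.1 p.2)) (0, 0) ∧
      Bijective (fderiv ℝ (fun y => φ 0 (g 0 y)) 0)

/-- Closing the cylinder in the ball. -/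
def S_A : Prop :=
  ∀ p : E (1 + 3), ‖p‖ < 1 → ∃ ρ : ℝ, 0 < ρ ∧ ∀ (φ : ℝ → E 3 → E 3) (τ : ℝ), 0 < τ → τ < ρ →
    Cyl 3 φ ρ τ (vp 1 3 p) →
    ∃ A : E (1 + 3) → E (1 + 3), ContinuousOn A (closedBall 0 1) ∧
      BijOn A (closedBall 0 1) (closedBall 0 1) ∧
      (∀ z ∈ closedBall (0 : E (1 + 3)) 1, z ≠ p →
        ContDiffAt ℝ ∞ A z ∧ Bijective (fderiv ℝ A z)) ∧
      ∀ᶠ z in 𝓝 p, A z = jn 1 3 (up 1 3 z) (φ (up 1 3 z 0 - up 1 3 p 0) (vp 1 3 z))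

/-- An adapted parametrization at an interior point. -/
def S_P2A : Prop :=
  ∀ (M : Type) [TopologicalSpace M] [ChartedSpace (EuclideanHalfSpace 4) M]
    [IsManifold (𝓡∂ 4) ∞ M] (u : M → ℝ) (x₀ : M), x₀ ∈ (𝓡∂ 4).interior M →
    (∀ᶠ y in 𝓝 x₀, ContMDiffAt (𝓡∂ 4) 𝓘(ℝ, ℝ) ∞ u y) → mfderiv (𝓡∂ 4) 𝓘(ℝ, ℝ) u x₀ ≠ 0 →
    ∃ (a : E (1 + 3) → M) (δ : ℝ), 0 < δ ∧ a 0 = x₀ ∧ InjOn a (ball 0 δ) ∧
      (∀ z ∈ ball (0 : E (1 + 3)) δ, IsLocalDiffeomorphAt (𝓡 4) (𝓡∂ 4) ∞ a z ∧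
        a z ∈ (𝓡∂ 4).interior M ∧ u (a z) = u x₀ + up 1 3 z 0)

/-- The theorem, with the first coordinate. -/
def S_P2 : Prop :=
  ∀ (M : Type) [TopologicalSpace M] [ChartedSpace (EuclideanHalfSpace 4) M]
    [IsManifold (𝓡∂ 4) ∞ M] (h : M → E 4) (x₀ : M), HB h → x₀ ∈ (𝓡∂ 4).interior M →
    (∀ x, x ≠ x₀ → Reg h x) →
    (∀ᶠ y in 𝓝 x₀, ContMDiffAt (𝓡∂ 4) 𝓘(ℝ, ℝ) ∞ (fun x => h x 0) y) →
    mfderiv (𝓡∂ 4) 𝓘(ℝ, ℝ) (fun x => h x 0) x₀ ≠ 0 → ∃ H : M → E 4, HB H ∧ ∀ x, Reg H x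

/-- Rotations. -/
def S_ROT : Prop :=
  ∀ ℓ : E 4 →L[ℝ] ℝ, ℓ ≠ 0 → ∃ (O : E 4 ≃ₗᵢ[ℝ] E 4) (c : ℝ), c ≠ 0 ∧ ∀ z, (O z) 0 = c * ℓ z

end Pool.Agent.N550.OC
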